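import Pool.Agent.Helper46.SP.Core

/-!
# Exact statements of the core combinatorics modules
-/

open Cardinal Set
open scoped Pointwise

namespace Pool.Agent.Helper46.SP

/-! ## A01 - A06: parameters, codes, Cohen conditions, names of reals -/

/-- (A01) Parameters exist. -/
def ST_par : Prop := Nonempty Par

/-- (A02) Code systems exist. -/
def ST_codes : Prop := ∀ Q : Par, Nonempty (CodeSys Q)

/-- (A03) The Cohen poset is ccc. -/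
def ST_P0ccc : Prop := ∀ Q : Par, CCC (P0 Q)

/-- Existence of permutations. -/
structure PermFacts (Q : Par) : Prop where
  /-- extension of small level preserving injections -/
  ext : ∀ (D : Set (Idx Q)) (f : Idx Q → Idx Q), #D ≤ Q.K → (∀ i ∈ D, (f i).1 = i.1) →
    Set.InjOn f D → ∃ g : Grp Q, ∀ i ∈ D, g • i = f i
  /-- moving a small set off a small set, fixing a subset -/
  fresh : ∀ (A B Z : Set (Idx Q)), #A ≤ Q.K → #B ≤ Q.K → Z ⊆ A →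
    ∃ g : Grp Q, Fixes g Z ∧ ∀ i ∈ A, i ∉ Z → g • i ∉ B
  /-- moving the labels of high level, fixing everything below -/
  freshAbove : ∀ (ν : Stg Q) (A B : Set (Idx Q)), #A ≤ Q.K → #B ≤ Q.K →
    ∃ g : Grp Q, Fixes g (below ν) ∧ ∀ i ∈ A, i ∉ below ν → g • i ∉ B

/-- (A04) -/
def ST_perm : Prop := ∀ Q : Par, PermFacts Q

/-- Compatibility of Cohen conditions. -/
def P0.Compat {Q : Par} (p q : P0 Q) : Prop :=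
  ∀ x b b', p.val x = some b → q.val x = some b' → b = b'

/-- Facts on the Cohen poset. -/
structure P0Facts (Q : Par) : Prop where
  res_le : ∀ (p : P0 Q) (Z : Set (Idx Q)), p ≤ p.res Z
  res_mono : ∀ (p q : P0 Q) (Z : Set (Idx Q)), p ≤ q → p.res Z ≤ q.res Z
  res_anti : ∀ (p : P0 Q) (Z W : Set (Idx Q)), Z ⊆ W → p.res W ≤ p.res Z
  res_res : ∀ (p : P0 Q) (Z W : Set (Idx Q)), (p.res Z).res W = p.res (Z ∩ W)
  fin_supp : ∀ p : P0 Q, ∃ z : Set (Idx Q), z.Finite ∧ (∀ ζ : Stg Q, z ⊆ below ζ) ∧ p.res z = p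
  res_eq_of : ∀ (p : P0 Q) (Z W : Set (Idx Q)), p.res Z = p → Z ⊆ W → p.res W = p
  merge_left : ∀ p q : P0 Q, p.merge q ≤ p
  merge_right : ∀ p q : P0 Q, p.Compat q → p.merge q ≤ q
  merge_res : ∀ (p q : P0 Q) (Z : Set (Idx Q)), (p.merge q).res Z = (p.res Z).merge (q.res Z)
  compat_iff : ∀ p q : P0 Q, p.Compat q ↔ ∃ r, r ≤ p ∧ r ≤ q
  compat3 : ∀ p q r : P0 Q, p.Compat q → p.Compat r → q.Compat r → ∃ s, s ≤ p ∧ s ≤ q ∧ s ≤ r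
  /-- conditions over `Y`, `Y'` are compatible if their parts over `Y ∩ Y'` are -/
  compat_over : ∀ (p q : P0 Q) (Y Y' : Set (Idx Q)), p.res Y = p → q.res Y' = q →
    (p.res (Y ∩ Y')).Compat (q.res (Y ∩ Y')) → p.Compat q
  smul_res : ∀ (g : Grp Q) (p : P0 Q) (Z : Set (Idx Q)), (g • p).res (g • Z) = g • p.res Z
  smul_congr : ∀ (g h : Grp Q) (p : P0 Q) (Z : Set (Idx Q)), p.res Z = p →
    (∀ i ∈ Z, g • i = h • i) → g • p = h • p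

/-- (A05) -/
def ST_P0 : Prop := ∀ Q : Par, P0Facts Q

/-- Facts on names of reals. -/
structure RNFacts (Q : Par) : Prop where
  refl : ∀ (x : RN Q) (p : P0 Q), x.Feq x p
  symm : ∀ (x y : RN Q) (p : P0 Q), x.Feq y p → y.Feq x p
  trans : ∀ (x y z : RN Q) (p : P0 Q), x.Feq y p → y.Feq z p → x.Feq z p
  mono : ∀ (x y : RN Q) (p q : P0 Q), x.Feq y p → q ≤ p → x.Feq y q
  dense : ∀ (x y : RN Q) (p : P0 Q), (∀ q ≤ p, ∃ r ≤ q, x.Feq y r) → x.Feq y p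
  eq_of_top : ∀ x y : RN Q, x.Feq y ⊤ → x = y
  smul : ∀ (g : Grp Q) (x y : RN Q) (p : P0 Q), x.Feq y p → (g • x).Feq (g • y) (g • p)
  over_mono : ∀ (x : RN Q) (Z W : Set (Idx Q)), x.Over Z → Z ⊆ W → x.Over W
  over_inter : ∀ (x : RN Q) (Z W : Set (Idx Q)), x.Over Z → x.Over W → x.Over (Z ∩ W)
  over_below : ∀ (x : RN Q) (Z : Set (Idx Q)) (ζ : Stg Q), x.Over Z → x.Over (Z ∩ below ζ)
  over_univ : ∀ x : RN Q, ∃ z : Set (Idx Q), z.Countable ∧ (∀ ζ : Stg Q, z ⊆ below ζ) ∧ x.Over z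
  over_smul : ∀ (g : Grp Q) (x : RN Q) (Z : Set (Idx Q)), x.Over Z → (g • x).Over (g • Z)
  smul_congr : ∀ (g h : Grp Q) (x : RN Q) (Z : Set (Idx Q)), x.Over Z →
    (∀ i ∈ Z, g • i = h • i) → g • x = h • x
  mix : ∀ (A : Set (P0 Q)) (v : P0 Q → RN Q), A.Countable →
    (∀ a ∈ A, ∀ b ∈ A, a ≠ b → ¬ ∃ r, r ≤ a ∧ r ≤ b) → ∃ x : RN Q, ∀ a ∈ A, x.Feq (v a) a
  /-- the regular hull of a sequence of countable sets is a name -/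
  hull : ∀ X : ℕ → Set (P0 Q), (∀ n, (X n).Countable) →
    ∃ x : RN Q, ∀ n p, p ∈ x.val n ↔ ∀ q ≤ p, ∃ r ≤ q, ∃ a ∈ X n, r ≤ a
  cardK : ∀ Z : Set (Idx Q), #Z ≤ Q.K → #{v : RN Q // v.Over Z} ≤ Q.K
  cardκ : ∀ (ζ : Q.Lev) (Z : Set (Idx Q)), #Z ≤ Q.κ ζ → #{v : RN Q // v.Over Z} ≤ Q.κ ζ

/-- (A06) -/
def ST_RN : Prop := ∀ Q : Par, RNFacts Q

/-! ## A07 - A08: basic facts on conditions, the tail lemma -/

variable {Q : Par} (S : CodeSys Q)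

/-- Basic facts on conditions, first part (no group). -/
structure CFacts : Prop where
  empty : ∀ ζ : Stg Q, (∅ : RC S) ∈ CC ζ
  mono : ∀ (ζ ζ' : Stg Q), ζ ≤ ζ' → (CC ζ : Set (RC S)) ⊆ CC ζ'
  cut : ∀ (ζ ξ : Stg Q) (c : RC S), c ∈ CC ζ → cut c ξ ∈ CC ξ
  ofLev : ∀ (ζ ζ' : Stg Q) (c : RC S), c ∈ CC ζ' → (∀ t ∈ c, (tlev t : Stg Q) < ζ) → c ∈ CC ζ
  /-- the union lemma -/
  union : ∀ (ζ : Stg Q) (ι : Type) (c : ι → RC S), (∀ i, c i ∈ CC ζ) → #(⋃ i, c i : RC S) ≤ Q.K →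
    (∀ η : Q.Lev, (η : Stg Q) < ζ → SP.cut (⋃ i, c i) η ∈ (CC (η : Stg Q) : Set (RC S)) →
      ∀ i j, i ≠ j → ∀ t ∈ c i, ∀ t' ∈ c j, tlev t = η → t.2.1 = t'.2.1 →
        ∀ p : P0 Q, ∀ d ∈ (CC (η : Stg Q) : Set (RC S)), SP.cut (⋃ i, c i) η ⊆ d →
          FE (CC (η : Stg Q)) (S.G t.1) (S.G t'.1) p d → t.2.2.Feq t'.2.2 p) →
    (⋃ i, c i) ∈ CC ζ
  /-- strengthening an initial part -/
  amalg : ∀ (ζ ξ : Stg Q) (c d : RC S), c ∈ CC ζ → d ∈ CC ξ → ξ ≤ ζ → SP.cut c ξ ⊆ d →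
    c ∪ d ∈ CC ζ ∧ SP.cut (c ∪ d) ξ = d
  /-- directed unions -/
  directed : ∀ (ζ : Stg Q) (D : Set (RC S)), D ⊆ CC ζ → DirectedOn (· ⊆ ·) D →
    #(⋃₀ D : RC S) ≤ Q.K → ⋃₀ D ∈ CC ζ
  /-- adding one triple -/
  add : ∀ (ζ : Stg Q) (c : RC S) (t : Trip S), c ∈ CC ζ → (tlev t : Stg Q) < ζ → SN (tlev t) t.1 →
    (∀ p : P0 Q, ∀ d ∈ (CC (tlev t : Stg Q) : Set (RC S)), SP.cut c (tlev t) ⊆ d → ∀ x : RN Q,
      FM (CC (tlev t : Stg Q)) x (S.G t.1) p d → FM (CC (tlev t : Stg Q)) t.2.2 (S.G t.1) p d) →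
    (∀ t' ∈ c, t.2.1 = t'.2.1 →
      ∀ p : P0 Q, ∀ d ∈ (CC (tlev t : Stg Q) : Set (RC S)), SP.cut c (tlev t) ⊆ d →
      FE (CC (tlev t : Stg Q)) (S.G t.1) (S.G t'.1) p d → t.2.2.Feq t'.2.2 p) →
    insert t c ∈ CC ζ

/-- (A07a) -/
def ST_cfacts : Prop := ∀ (Q : Par) (S : CodeSys Q), CFacts S

/-- Regularity facts. -/
structure RFacts : Prop where
  /-- membership and equality are regular -/
  regFM : ∀ (ζ : Stg Q) (x : RN Q) (T : Set (RN Q × P0 Q × RC S)),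
    RegB ζ {y : P0 Q × RC S | y.2 ∈ CC ζ ∧ FM (CC ζ) x T y.1 y.2}
  regFE : ∀ (ζ : Stg Q) (T T' : Set (RN Q × P0 Q × RC S)),
    RegB ζ {y : P0 Q × RC S | y.2 ∈ CC ζ ∧ FE (CC ζ) T T' y.1 y.2}
  /-- lifting regular sets from stage `ξ` to stage `ζ` -/
  regLift : ∀ (ζ ξ : Stg Q) (b : Set (P0 Q × RC S)), ξ ≤ ζ → RegB ξ b →
    RegB ζ {y : P0 Q × RC S | y.2 ∈ CC ζ ∧ (y.1, SP.cut y.2 ξ) ∈ b}
  /-- implication -/
  regImp : ∀ (ζ : Stg Q) (b b' : Set (P0 Q × RC S)), RegB ζ b → RegB ζ b' →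
    RegB ζ {y : P0 Q × RC S | y.2 ∈ CC ζ ∧ ∀ p ≤ y.1, ∀ c ∈ CC ζ, y.2 ⊆ c → (p, c) ∈ b →
      (p, c) ∈ b'}
  /-- a generator forces membership -/
  gen : ∀ (ξ : Q.Lev) (A : S.U), ∀ t ∈ S.G A, ∀ p ≤ t.2.1, ∀ c ∈ (CC (ξ : Stg Q) : Set (RC S)),
    t.2.2 ⊆ c → FM (CC (ξ : Stg Q)) t.1 (S.G A) p c
  fmCongr : ∀ (ζ : Stg Q) (x x' : RN Q) (T : Set (RN Q × P0 Q × RC S)) (p : P0 Q) (c : RC S),
    x.Feq x' p → FM (CC ζ) x T p c → FM (CC ζ) x' T p c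
  /-- set names which are forced equal by the trivial condition are equal -/
  snExt : ∀ (ξ : Q.Lev) (A B : S.U), SN ξ A → SN ξ B →
    FE (CC (ξ : Stg Q)) (S.G A) (S.G B) ⊤ ∅ → A = B

/-- (A07b) -/
def ST_rfacts : Prop := ∀ (Q : Par) (S : CodeSys Q), RFacts S

/-- Basic facts on conditions, second part (the group). -/
structure GFacts : Prop where
  cc : ∀ (ζ : Stg Q) (g : Grp Q) (c : RC S), c ∈ CC ζ → g • c ∈ CC ζ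
  cut : ∀ (ζ : Stg Q) (g : Grp Q) (c : RC S), SP.cut (g • c) ζ = g • SP.cut c ζ
  fm : ∀ (ζ : Stg Q) (g : Grp Q) (x : RN Q) (T : Set (RN Q × P0 Q × RC S)) (p : P0 Q) (c : RC S),
    FM (CC ζ) x T p c → FM (CC ζ) (g • x) (g • T) (g • p) (g • c)
  fe : ∀ (ζ : Stg Q) (g : Grp Q) (T T' : Set (RN Q × P0 Q × RC S)) (p : P0 Q) (c : RC S),
    FE (CC ζ) T T' p c → FE (CC ζ) (g • T) (g • T') (g • p) (g • c)
  sn : ∀ (ξ : Q.Lev) (g : Grp Q) (A : S.U), SN ξ A → SN ξ (g • A)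
  /-- names of level `ξ` are fixed by permutations fixing everything below `ξ` -/
  snFix : ∀ (ξ : Q.Lev) (g : Grp Q) (A : S.U), SN ξ A → Fixes g (below (ξ : Stg Q)) → g • A = A
  ccFix : ∀ (ζ : Stg Q) (g : Grp Q) (c : RC S), c ∈ CC ζ → Fixes g (below ζ) → g • c = c

/-- (A07c) -/
def ST_gfacts : Prop := ∀ (Q : Par) (S : CodeSys Q), GFacts S

/-- Facts on supports and closed conditions. -/
structure OFacts : Prop where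
  uoverMono : ∀ (A : S.U) (Z W : Set (Idx Q)), UOver A Z → Z ⊆ W → UOver A W
  uoverBelow : ∀ (ξ : Q.Lev) (A : S.U) (Z : Set (Idx Q)), SN ξ A → UOver A Z →
    UOver A (Z ∩ below (ξ : Stg Q))
  uoverSmul : ∀ (g : Grp Q) (A : S.U) (Z : Set (Idx Q)), UOver A Z → UOver (g • A) (g • Z)
  uoverCongr : ∀ (g h : Grp Q) (A : S.U) (Z : Set (Idx Q)), UOver A Z →
    (∀ i ∈ Z, g • i = h • i) → g • A = h • A
  coverMono : ∀ (c : RC S) (Z W : Set (Idx Q)), COver c Z → Z ⊆ W → COver c W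
  coverSmul : ∀ (g : Grp Q) (c : RC S) (Z : Set (Idx Q)), COver c Z → COver (g • c) (g • Z)
  coverCongr : ∀ (g h : Grp Q) (c : RC S) (Z : Set (Idx Q)), COver c Z →
    (∀ i ∈ Z, g • i = h • i) → g • c = h • c
  coverLev : ∀ (ζ : Stg Q) (c : RC S) (Z : Set (Idx Q)), COver c Z → Z ⊆ below ζ →
    ∀ t ∈ c, (tlev t : Stg Q) < ζ
  closedSmul : ∀ (g : Grp Q) (c : RC S) (Z : Set (Idx Q)), Closed c Z → Closed (g • c) (g • Z)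
  closedCut : ∀ (ξ : Stg Q) (c : RC S) (Z : Set (Idx Q)), Closed c Z →
    Closed (SP.cut c ξ) (Z ∩ below ξ)
  closedStage : ∀ (ζ : Stg Q) (c : RC S) (Z : Set (Idx Q)), Closed c Z → Z ⊆ below ζ → c ∈ CC ζ
  closedSub : ∀ (c d : RC S) (Z : Set (Idx Q)), Closed c Z → c ⊆ d → d ∈ (CC ⊤ : Set (RC S)) →
    DClosed d Z ∧ rst d Z = c
  dclosedInter : ∀ (d : RC S) (Z W : Set (Idx Q)), DClosed d Z → DClosed d W → DClosed d (Z ∩ W)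
  dclosedSmul : ∀ (g : Grp Q) (d : RC S) (Z : Set (Idx Q)), DClosed d Z →
    DClosed (g • d) (g • Z) ∧ rst (g • d) (g • Z) = g • rst d Z
  rstSub : ∀ (d : RC S) (Z : Set (Idx Q)), rst d Z ⊆ d
  rstCover : ∀ (d : RC S) (Z : Set (Idx Q)), DClosed d Z → COver (rst d Z) Z
  /-- the value is unique -/
  uniq : ∀ (d : RC S) (A : S.U) (l : Lab Q) (v v' : RN Q), d ∈ (CC ⊤ : Set (RC S)) →
    (A, l, v) ∈ d → (A, l, v') ∈ d → v = v'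
  /-- the name and the label of a triple of a condition -/
  names : ∀ (ζ : Stg Q) (c : RC S), c ∈ CC ζ → ∀ t ∈ c, SN (tlev t) t.1

/-- (A07d) -/
def ST_ofacts : Prop := ∀ (Q : Par) (S : CodeSys Q), OFacts S

/-- (A08) The tail lemma. -/
def ST_tail : Prop := ∀ (Q : Par) (S : CodeSys Q) (ζ ν : Stg Q) (b : Set (P0 Q × RC S)),
  RegB ζ b → InvB (below ν) b → ∀ (p : P0 Q) (c : RC S), (p, c) ∈ b → (p, cut c ν) ∈ b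

/-! ## A09 - A12: fullness, totality, counting, density of closed conditions, hulls -/

/-- (A09a) Fullness. -/
def ST_full : Prop := ∀ (Q : Par) (S : CodeSys Q) (ζ : Stg Q) (p : P0 Q) (c : RC S),
  c ∈ CC ζ → ∀ φ : RN Q → Set (P0 Q × RC S), (∀ v, RegB ζ (φ v)) →
  (∀ (v v' : RN Q) (q : P0 Q) (d : RC S), v.Feq v' q → (q, d) ∈ φ v → (q, d) ∈ φ v') →
  (∀ q ≤ p, ∀ d ∈ CC ζ, c ⊆ d → ∃ q' ≤ q, ∃ d' ∈ CC ζ, d ⊆ d' ∧ ∃ v, (q', d') ∈ φ v) →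
  ∃ d ∈ CC ζ, c ⊆ d ∧ ∃ v, (p, d) ∈ φ v

/-- (A09b) Totality of the choice functions. -/
def ST_tot : Prop := ∀ (Q : Par) (S : CodeSys Q) (ζ : Stg Q) (c : RC S), c ∈ CC ζ →
  ∀ (B : S.U) (l : Lab Q), (l.1 : Stg Q) < ζ → SN l.1 B →
  ∃ c' ∈ CC ζ, c ⊆ c' ∧ ∃ v, (B, l, v) ∈ c'

/-- (A10a) The number of set names with a given small support. -/
def ST_count0 : Prop := ∀ (Q : Par) (S : CodeSys Q) (ξ : Q.Lev) (z : Set (Idx Q)), #z ≤ Q.κ ξ →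
  #{A : S.U // SN ξ A ∧ ∀ g : Grp Q, Fixes g z → g • A = A} ≤
    (2 : Cardinal.{0}) ^ ((2 : Cardinal.{0}) ^ Q.κ ξ)

/-- (A10b) The number of set names over `Z`. -/
def ST_count : Prop := ∀ (Q : Par) (S : CodeSys Q) (Z : Set (Idx Q)),
  (#Z ≤ Q.K → #{A : S.U // SN (S.lev A) A ∧ UOver A Z} ≤ Q.K) ∧
  (∀ ζ : Q.Lev, #Z ≤ Q.κ ζ → #{A : S.U // SN (S.lev A) A ∧ S.lev A < ζ ∧ UOver A Z} ≤ Q.κ ζ) ∧
  (∀ (ζ : Q.Lev) (d : RC S), d ∈ (CC ⊤ : Set (RC S)) → #Z ≤ Q.κ ζ → Z ⊆ below (ζ : Stg Q) →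
    #(rst d Z) ≤ Q.κ ζ)

/-- (A11) Closed conditions are dense. -/
def ST_dense : Prop := ∀ (Q : Par) (S : CodeSys Q) (ζ : Stg Q) (c : RC S) (Y₀ : Set (Idx Q)),
  c ∈ CC ζ → Y₀ ⊆ below ζ → #Y₀ ≤ Q.K →
  ∃ (d : RC S) (Y : Set (Idx Q)), Closed d Y ∧ c ⊆ d ∧ d ∈ CC ζ ∧ Y₀ ⊆ Y ∧ Y ⊆ below ζ

/-- (A12) Small hulls in closed conditions. -/
def ST_hull : Prop := ∀ (Q : Par) (S : CodeSys Q) (ζ : Q.Lev) (d : RC S) (Y z : Set (Idx Q)),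
  Closed d Y → Y ⊆ below (ζ : Stg Q) → z ⊆ Y → #z ≤ Q.κ ζ →
  ∃ Z, z ⊆ Z ∧ Z ⊆ Y ∧ #Z ≤ Q.κ ζ ∧ DClosed d Z

/-! ## A13 - A18: the induction -/

/-- The intersection property at level `ζ`. -/
def IP (ζ : Q.Lev) : Prop :=
  ∀ (d₁ d₂ : RC S) (Y₁ Y₂ : Set (Idx Q)), Closed d₁ Y₁ → Closed d₂ Y₂ →
    Y₁ ⊆ below (ζ : Stg Q) → Y₂ ⊆ below (ζ : Stg Q) →
    ∀ (p : P0 Q) (e : RC S), e ∈ CC (ζ : Stg Q) → d₁ ⊆ e → d₂ ⊆ e →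
    ∀ A A' : S.U, SN ζ A → SN ζ A' → UOver A Y₁ → UOver A' Y₂ →
    FE (CC (ζ : Stg Q)) (S.G A) (S.G A') p e →
    ∃ p' ≤ p, ∃ e' ∈ (CC (ζ : Stg Q) : Set (RC S)), e ⊆ e' ∧
      ∃ B : S.U, SN ζ B ∧ UOver B (Y₁ ∩ Y₂) ∧ FE (CC (ζ : Stg Q)) (S.G A) (S.G B) p' e'

/-- Amalgamation at stage `ζ`. -/
def MA (ζ : Stg Q) : Prop :=
  ∀ (ι : Type) [Finite ι] (d : ι → RC S) (Y : ι → Set (Idx Q)), (∀ i, Closed (d i) (Y i)) →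
    (∀ i, Y i ⊆ below ζ) →
    (∀ i j, i ≠ j → ∃ c : RC S, c ⊆ d i ∧ c ⊆ d j ∧ Closed c (Y i ∩ Y j)) →
    (⋃ i, d i) ∈ CC ζ

/-- Homogeneity over closed sets at stage `ζ`. -/
def Hom (ζ : Stg Q) : Prop :=
  ∀ (c : RC S) (Z : Set (Idx Q)), Closed c Z → Z ⊆ below ζ →
    ∀ b : Set (P0 Q × RC S), RegB ζ b → InvB Z b →
    ∀ (p : P0 Q) (d : RC S), (p, d) ∈ b → c ⊆ d → (p.res Z, c) ∈ b

/-- Restrictions to closed subsets are closed conditions. -/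
def Res (ζ : Stg Q) : Prop :=
  ∀ (d : RC S) (Y : Set (Idx Q)), Closed d Y → Y ⊆ below ζ → ∀ Z ⊆ Y, DClosed d Z →
    Closed (rst d Z) Z

/-- Small invariant families are given by set names. -/
def Gen (ζ : Q.Lev) : Prop :=
  ∀ BB : RN Q → Set (P0 Q × RC S), (∀ x, RegB (ζ : Stg Q) (BB x)) →
    (∀ (x x' : RN Q) (p : P0 Q) (c : RC S), (p, c) ∈ BB x → x.Feq x' p → (p, c) ∈ BB x') →
    ∀ Z₀ : Set (Idx Q), Z₀ ⊆ below (ζ : Stg Q) → #Z₀ ≤ Q.κ ζ →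
    (∀ g : Grp Q, Fixes g Z₀ → ∀ x, ∀ y ∈ BB x, g • y ∈ BB (g • x)) →
    ∃ A : S.U, SN ζ A ∧ (∀ g : Grp Q, Fixes g Z₀ → g • A = A) ∧
      ∀ (x : RN Q) (p : P0 Q) (c : RC S), c ∈ CC (ζ : Stg Q) →
        (FM (CC (ζ : Stg Q)) x (S.G A) p c ↔ (p, c) ∈ BB x)

/-- The lemma (*). -/
def Star (ζ : Q.Lev) : Prop :=
  ∀ (e : RC S) (Y Z₁ Z₂ : Set (Idx Q)) (p : P0 Q) (A A' : S.U), Closed e Y →
    Y ⊆ below (ζ : Stg Q) → p.res Y = p → Z₁ ⊆ Y → Z₂ ⊆ Y → DClosed e Z₁ → DClosed e Z₂ →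
    SN ζ A → SN ζ A' → UOver A Z₁ → UOver A' Z₂ →
    FE (CC (ζ : Stg Q)) (S.G A) (S.G A') p e →
    ∀ g : Grp Q, Fixes g (Z₁ ∩ Z₂) → ∀ t : P0 Q, ∀ c ∈ (CC (ζ : Stg Q) : Set (RC S)),
      t ≤ p → e ⊆ c → t ≤ g • p → g • e ⊆ c →
      FE (CC (ζ : Stg Q)) (S.G A) (S.G (g • A)) t c

/-- (A13) -/
def ST_MA : Prop := ∀ (Q : Par) (S : CodeSys Q) (ζ : Stg Q),
  (∀ ξ : Q.Lev, (ξ : Stg Q) < ζ → IP S ξ) → MA S ζ

/-- (A14) -/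
def ST_Hom : Prop := ∀ (Q : Par) (S : CodeSys Q) (ζ : Stg Q), MA S ζ → Hom S ζ

/-- (A15) -/
def ST_Res : Prop := ∀ (Q : Par) (S : CodeSys Q) (ζ : Stg Q),
  (∀ ξ : Q.Lev, (ξ : Stg Q) < ζ → Hom S ξ) → Res S ζ

/-- (A16) -/
def ST_Gen : Prop := ∀ (Q : Par) (S : CodeSys Q) (ζ : Q.Lev), Hom S ζ → Res S ζ → Gen S ζ

/-- (A17a) -/
def ST_Star : Prop := ∀ (Q : Par) (S : CodeSys Q) (ζ : Q.Lev), MA S ζ → Res S ζ → Star S ζ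

/-- (A17b) -/
def ST_IP : Prop := ∀ (Q : Par) (S : CodeSys Q) (ζ : Q.Lev), Star S ζ → Gen S ζ → Res S ζ →
  IP S ζ

/-- (A18) The result of the induction. -/
def ST_core : Prop := ∀ (Q : Par) (S : CodeSys Q),
  (∀ ζ : Stg Q, MA S ζ ∧ Hom S ζ ∧ Res S ζ) ∧ ∀ ζ : Q.Lev, Gen S ζ ∧ IP S ζ

end Pool.Agent.Helper46.SP
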