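import Pool.Agent.Helper46.SP.Sys

open Cardinal Set
open scoped Pointwise

namespace Pool.Agent.Helper46.SP

variable {Q : Par} {S : CodeSys Q}

theorem cut_sub (c : RC S) (ζ : Stg Q) : cut c ζ ⊆ c := fun _ h => h.1

theorem cut_mono {c d : RC S} (h : c ⊆ d) (ζ : Stg Q) : cut c ζ ⊆ cut d ζ :=
  fun _ ht => ⟨h ht.1, ht.2⟩

theorem cut_cut (c : RC S) (ζ ξ : Stg Q) : cut (cut c ζ) ξ = cut c (min ζ ξ) := by
  ext t
  simp only [cut, Set.mem_setOf_eq, lt_min_iff, and_assoc]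

theorem cut_cut_of_le (c : RC S) {ζ ξ : Stg Q} (h : ξ ≤ ζ) : cut (cut c ζ) ξ = cut c ξ := by
  rw [cut_cut, min_eq_right h]

theorem FE_refl (𝒞 : Set (RC S)) (T : Set (RN Q × P0 Q × RC S)) (p : P0 Q) (c : RC S) :
    FE 𝒞 T T p c := fun _ _ _ _ _ _ => Iff.rfl

theorem FE_symm {𝒞 : Set (RC S)} {T T' : Set (RN Q × P0 Q × RC S)} {p : P0 Q} {c : RC S}
    (h : FE 𝒞 T T' p c) : FE 𝒞 T' T p c :=
  fun p' hp' c' hc' hcc' x => (h p' hp' c' hc' hcc' x).symm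

theorem FE_trans {𝒞 : Set (RC S)} {T T' T'' : Set (RN Q × P0 Q × RC S)} {p : P0 Q} {c : RC S}
    (h : FE 𝒞 T T' p c) (h' : FE 𝒞 T' T'' p c) : FE 𝒞 T T'' p c :=
  fun p' hp' c' hc' hcc' x => (h p' hp' c' hc' hcc' x).trans (h' p' hp' c' hc' hcc' x)

theorem FE_mono {𝒞 : Set (RC S)} {T T' : Set (RN Q × P0 Q × RC S)} {p p' : P0 Q} {c c' : RC S}
    (h : FE 𝒞 T T' p c) (hp : p' ≤ p) (hc : c ⊆ c') : FE 𝒞 T T' p' c' :=
  fun p'' hp'' c'' hc'' hcc'' x => h p'' (hp''.trans hp) c'' hc'' (hc.trans hcc'') x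

theorem FM_mono {𝒞 : Set (RC S)} {x : RN Q} {T : Set (RN Q × P0 Q × RC S)} {p p' : P0 Q}
    {c c' : RC S} (h : FM 𝒞 x T p c) (hp : p' ≤ p) (hc : c ⊆ c') : FM 𝒞 x T p' c' :=
  fun p'' hp'' c'' hc'' hcc'' => h p'' (hp''.trans hp) c'' hc'' (hc.trans hcc'')

theorem CC_card {ζ : Stg Q} {c : RC S} (hc : c ∈ CC ζ) : #c ≤ Q.K := (mem_CC.1 hc).1

theorem CC_lev {ζ : Stg Q} {c : RC S} (hc : c ∈ CC ζ) : ∀ t ∈ c, (tlev t : Stg Q) < ζ :=
  (mem_CC.1 hc).2.1

theorem CC_OK {ζ : Stg Q} {c : RC S} (hc : c ∈ CC ζ) (η : Q.Lev) :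
    OK (CC (η : Stg Q)) η c := by
  by_cases h : (η : Stg Q) < ζ
  · exact (mem_CC.1 hc).2.2 η h
  · have h1 : ∀ t ∈ c, tlev t ≠ η := by
      intro t ht h2
      apply h
      rw [← h2]
      exact CC_lev hc t ht
    exact ⟨fun t ht h2 => absurd h2 (h1 t ht), fun t ht h2 => absurd h2 (h1 t ht),
      fun t ht _ _ h2 => absurd h2 (h1 t ht)⟩

theorem OK_cut {η : Q.Lev} {c : RC S} (h : OK (CC (η : Stg Q)) η c) {ζ : Stg Q}
    (hζ : (η : Stg Q) ≤ ζ) : OK (CC (η : Stg Q)) η (cut c ζ) := by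
  refine ⟨fun t ht h2 => h.name t ht.1 h2, fun t ht h2 p d hd hcd => ?_,
    fun t ht t' ht' h2 h3 p d hd hcd => ?_⟩
  · rw [cut_cut_of_le _ hζ] at hcd
    exact h.mem t ht.1 h2 p d hd hcd
  · rw [cut_cut_of_le _ hζ] at hcd
    exact h.fn t ht.1 t' ht'.1 h2 h3 p d hd hcd

theorem K_inf (Q : Par) : ℵ₀ ≤ Q.K := by
  obtain ⟨ν, _⟩ := Q.lev_bdd ∅ Set.countable_empty
  exact (κ_inf ν).trans (Q.κ_le_K ν)

theorem CC_cut {ζ : Stg Q} (ξ : Stg Q) {c : RC S} (hc : c ∈ CC ζ) : cut c ξ ∈ CC ξ := by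
  rw [mem_CC]
  refine ⟨(Cardinal.mk_le_mk_of_subset (cut_sub c ξ)).trans (CC_card hc), fun t ht => ht.2,
    fun η hη => OK_cut (CC_OK hc η) hη.le⟩

theorem CC_ofLev {ζ ζ' : Stg Q} {c : RC S} (hc : c ∈ CC ζ')
    (h : ∀ t ∈ c, (tlev t : Stg Q) < ζ) : c ∈ CC ζ := by
  rw [mem_CC]
  exact ⟨CC_card hc, h, fun η _ => CC_OK hc η⟩

theorem CC_mono {ζ ζ' : Stg Q} (h : ζ ≤ ζ') : (CC ζ : Set (RC S)) ⊆ CC ζ' :=
  fun _ hc => CC_ofLev hc (fun t ht => (CC_lev hc t ht).trans_le h)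

/-- The local criterion: to be a condition of stage `ζ` it is enough to satisfy the requirements
at level `η`, assuming that the part below `η` is a condition. -/
theorem CC_of {ζ : Stg Q} {c : RC S} (h1 : #c ≤ Q.K) (h2 : ∀ t ∈ c, (tlev t : Stg Q) < ζ)
    (h3 : ∀ η : Q.Lev, (η : Stg Q) < ζ → cut c η ∈ (CC (η : Stg Q) : Set (RC S)) →
      OK (CC (η : Stg Q)) η c) : c ∈ CC ζ := by
  have key : ∀ η : Q.Lev, (η : Stg Q) < ζ → cut c η ∈ (CC (η : Stg Q) : Set (RC S)) := by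
    intro η
    induction η using WellFoundedLT.induction with
    | ind η ih =>
      intro hη
      rw [mem_CC]
      refine ⟨(Cardinal.mk_le_mk_of_subset (cut_sub c _)).trans h1, fun t ht => ht.2,
        fun ν hν => ?_⟩
      have hν' : ν < η := by exact_mod_cast hν
      exact OK_cut (h3 ν (hν.trans hη) (ih ν hν' (hν.trans hη))) hν.le
  rw [mem_CC]
  exact ⟨h1, h2, fun η hη => h3 η hη (key η hη)⟩

theorem CC_union {ζ : Stg Q} {ι : Type} {c : ι → RC S} (hc : ∀ i, c i ∈ CC ζ)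
    (hcard : #(⋃ i, c i : RC S) ≤ Q.K)
    (h : ∀ η : Q.Lev, (η : Stg Q) < ζ → cut (⋃ i, c i) η ∈ (CC (η : Stg Q) : Set (RC S)) →
      ∀ i j, i ≠ j → ∀ t ∈ c i, ∀ t' ∈ c j, tlev t = η → t.2.1 = t'.2.1 →
        ∀ p : P0 Q, ∀ d ∈ (CC (η : Stg Q) : Set (RC S)), cut (⋃ i, c i) η ⊆ d →
          FE (CC (η : Stg Q)) (S.G t.1) (S.G t'.1) p d → t.2.2.Feq t'.2.2 p) :
    (⋃ i, c i) ∈ CC ζ := by
  have hs : ∀ i (η : Stg Q), cut (c i) η ⊆ cut (⋃ i, c i) η :=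
    fun i η => cut_mono (Set.subset_iUnion c i) η
  apply CC_of hcard
  · intro t ht
    obtain ⟨i, hi⟩ := Set.mem_iUnion.1 ht
    exact CC_lev (hc i) t hi
  · intro η hη hcut
    refine ⟨fun t ht h2 => ?_, fun t ht h2 p d hd hcd => ?_, fun t ht t' ht' h2 h3 p d hd hcd => ?_⟩
    · obtain ⟨i, hi⟩ := Set.mem_iUnion.1 ht
      exact (CC_OK (hc i) η).name t hi h2
    · obtain ⟨i, hi⟩ := Set.mem_iUnion.1 ht
      exact (CC_OK (hc i) η).mem t hi h2 p d hd ((hs i η).trans hcd)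
    · obtain ⟨i, hi⟩ := Set.mem_iUnion.1 ht
      obtain ⟨j, hj⟩ := Set.mem_iUnion.1 ht'
      by_cases hij : i = j
      · subst hij
        exact (CC_OK (hc i) η).fn t hi t' hj h2 h3 p d hd ((hs i η).trans hcd)
      · exact h η hη hcut i j hij t hi t' hj h2 h3 p d hd hcd

theorem cut_union (c d : RC S) (ζ : Stg Q) : cut (c ∪ d) ζ = cut c ζ ∪ cut d ζ := by
  ext t
  simp only [cut, Set.mem_setOf_eq, Set.mem_union, or_and_right]

theorem cut_eq_self {ζ : Stg Q} {c : RC S} (h : ∀ t ∈ c, (tlev t : Stg Q) < ζ) : cut c ζ = c := by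
  ext t
  exact ⟨fun ht => ht.1, fun ht => ⟨ht, h t ht⟩⟩

theorem CC_amalg {ζ ξ : Stg Q} {c d : RC S} (hc : c ∈ CC ζ) (hd : d ∈ CC ξ) (h : ξ ≤ ζ)
    (hcd : cut c ξ ⊆ d) : c ∪ d ∈ CC ζ ∧ cut (c ∪ d) ξ = d := by
  have hcut : cut (c ∪ d) ξ = d := by
    rw [cut_union, cut_eq_self (CC_lev hd), Set.union_eq_self_of_subset_left hcd]
  refine ⟨?_, hcut⟩
  apply CC_of
  · refine (Cardinal.mk_union_le _ _).trans ?_
    refine (add_le_add (CC_card hc) (CC_card hd)).trans ?_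
    rw [Cardinal.add_eq_self (K_inf Q)]
  · rintro t (ht | ht)
    · exact CC_lev hc t ht
    · exact (CC_lev hd t ht).trans_le h
  · intro η hη _
    by_cases hηξ : (η : Stg Q) < ξ
    · have hmem : ∀ t ∈ c ∪ d, tlev t = η → t ∈ d := by
        intro t ht h2
        rw [← hcut]
        exact ⟨ht, by rw [h2]; exact hηξ⟩
      have hsub : cut d η ⊆ cut (c ∪ d) η := cut_mono Set.subset_union_right _
      refine ⟨fun t ht h2 => (CC_OK hd η).name t (hmem t ht h2) h2,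
        fun t ht h2 p e he hce => ?_, fun t ht t' ht' h2 h3 p e he hce => ?_⟩
      · exact (CC_OK hd η).mem t (hmem t ht h2) h2 p e he (hsub.trans hce)
      · have h2' : tlev t' = η := by
          rw [← h2]
          unfold tlev
          rw [h3]
        exact (CC_OK hd η).fn t (hmem t ht h2) t' (hmem t' ht' h2') h2 h3 p e he (hsub.trans hce)
    · have hmem : ∀ t ∈ c ∪ d, tlev t = η → t ∈ c := by
        rintro t (ht | ht) h2
        · exact ht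
        · exfalso
          apply hηξ
          rw [← h2]
          exact CC_lev hd t ht
      have hsub : cut c η ⊆ cut (c ∪ d) η := cut_mono Set.subset_union_left _
      refine ⟨fun t ht h2 => (CC_OK hc η).name t (hmem t ht h2) h2,
        fun t ht h2 p e he hce => ?_, fun t ht t' ht' h2 h3 p e he hce => ?_⟩
      · exact (CC_OK hc η).mem t (hmem t ht h2) h2 p e he (hsub.trans hce)
      · have h2' : tlev t' = η := by
          rw [← h2]
          unfold tlev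
          rw [h3]
        exact (CC_OK hc η).fn t (hmem t ht h2) t' (hmem t' ht' h2') h2 h3 p e he (hsub.trans hce)

theorem CC_directed {ζ : Stg Q} {D : Set (RC S)} (hD : D ⊆ CC ζ) (hdir : DirectedOn (· ⊆ ·) D)
    (hcard : #(⋃₀ D : RC S) ≤ Q.K) : ⋃₀ D ∈ CC ζ := by
  apply CC_of hcard
  · rintro t ⟨c, hc, ht⟩
    exact CC_lev (hD hc) t ht
  · intro η hη _
    have hsub : ∀ c ∈ D, cut c η ⊆ cut (⋃₀ D) η :=
      fun c hc => cut_mono (Set.subset_sUnion_of_mem hc) _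
    refine ⟨?_, ?_, ?_⟩
    · rintro t ⟨c, hc, ht⟩ h2
      exact (CC_OK (hD hc) η).name t ht h2
    · rintro t ⟨c, hc, ht⟩ h2 p e he hce
      exact (CC_OK (hD hc) η).mem t ht h2 p e he ((hsub c hc).trans hce)
    · rintro t ⟨c, hc, ht⟩ t' ⟨c', hc', ht'⟩ h2 h3 p e he hce
      obtain ⟨c'', hc'', h4, h5⟩ := hdir c hc c' hc'
      exact (CC_OK (hD hc'') η).fn t (h4 ht) t' (h5 ht') h2 h3 p e he ((hsub c'' hc'').trans hce)

theorem feq_symm {x y : RN Q} {p : P0 Q} (h : x.Feq y p) : y.Feq x p :=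
  fun q hq n => (h q hq n).symm

theorem CC_add {ζ : Stg Q} {c : RC S} {t : Trip S} (hc : c ∈ CC ζ) (ht : (tlev t : Stg Q) < ζ)
    (hsn : SN (tlev t) t.1)
    (hmem : ∀ p : P0 Q, ∀ d ∈ (CC (tlev t : Stg Q) : Set (RC S)), cut c (tlev t) ⊆ d →
      ∀ x : RN Q, FM (CC (tlev t : Stg Q)) x (S.G t.1) p d →
        FM (CC (tlev t : Stg Q)) t.2.2 (S.G t.1) p d)
    (hfn : ∀ t' ∈ c, t.2.1 = t'.2.1 →
      ∀ p : P0 Q, ∀ d ∈ (CC (tlev t : Stg Q) : Set (RC S)), cut c (tlev t) ⊆ d →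
      FE (CC (tlev t : Stg Q)) (S.G t.1) (S.G t'.1) p d → t.2.2.Feq t'.2.2 p) :
    insert t c ∈ CC ζ := by
  have hsub : ∀ η : Stg Q, cut c η ⊆ cut (insert t c) η := fun η =>
    cut_mono (Set.subset_insert _ _) η
  apply CC_of
  · refine (Cardinal.mk_insert_le).trans ?_
    refine (add_le_add (CC_card hc) (le_trans (Cardinal.one_le_aleph0) (K_inf Q))).trans ?_
    rw [Cardinal.add_eq_self (K_inf Q)]
  · rintro t' (rfl | ht')
    · exact ht
    · exact CC_lev hc t' ht'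
  · intro η hη _
    refine ⟨?_, ?_, ?_⟩
    · rintro t' (rfl | ht') h2
      · subst h2
        exact hsn
      · exact (CC_OK hc η).name t' ht' h2
    · rintro t' (rfl | ht') h2 p e he hce
      · subst h2
        exact hmem p e he ((hsub _).trans hce)
      · exact (CC_OK hc η).mem t' ht' h2 p e he ((hsub _).trans hce)
    · rintro t₁ (rfl | ht₁) t₂ (rfl | ht₂) h2 h3 p e he hce hFE
      · exact fun q hq n => Iff.rfl
      · subst h2
        exact hfn t₂ ht₂ h3 p e he ((hsub _).trans hce) hFE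
      · have h4 : tlev t₂ = η := by
          rw [← h2]
          unfold tlev
          rw [h3]
        subst h4
        exact feq_symm (hfn t₁ ht₁ h3.symm p e he ((hsub _).trans hce) (FE_symm hFE))
      · exact (CC_OK hc η).fn t₁ ht₁ t₂ ht₂ h2 h3 p e he ((hsub _).trans hce) hFE

/-- (A07a) -/
theorem st_cfacts : ST_cfacts := fun Q S =>
  { empty := CC_empty
    mono := fun _ _ h => CC_mono h
    cut := fun _ ξ _ hc => CC_cut ξ hc
    ofLev := fun _ _ _ hc h => CC_ofLev hc h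
    union := fun _ _ _ hc hcard h => CC_union hc hcard h
    amalg := fun _ _ _ _ hc hd h hcd => CC_amalg hc hd h hcd
    directed := fun _ _ hD hdir hcard => CC_directed hD hdir hcard
    add := fun _ _ _ hc ht hsn hmem hfn => CC_add hc ht hsn hmem hfn }

end Pool.Agent.Helper46.SP
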