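import Pool.Agent.Helper46.SP.A14

open Cardinal Set
open scoped Pointwise

namespace Pool.Agent.Helper46.SP

variable {Q : Par} {S : CodeSys Q}

theorem lab_smul (g : Grp Q) (l : Lab Q) : lab (g • l) = g • lab l := rfl

/-- (A08) -/
theorem st_tail (hPerm : ST_perm) (hP : ST_P0) (hG : ST_gfacts) : ST_tail := by
  intro Q S ζ ν b hreg hinv p c hpc
  have hG := hG Q S
  have hP := hP Q
  have hPerm := hPerm Q
  have hc : c ∈ (CC ζ : Set (RC S)) := hreg.sub _ hpc
  have hcutζ : cut c ν ∈ (CC ζ : Set (RC S)) :=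
    CC_ofLev (CC_cut ν hc) (fun t ht => CC_lev hc t ht.1)
  apply hreg.dense _ _ hcutζ
  intro p' hp' c' hc' hcc'
  obtain ⟨g, hg, hgf⟩ := hPerm.freshAbove ν ((fun t : Trip S => lab t.2.1) '' c)
    ((fun t : Trip S => lab t.2.1) '' c') (Cardinal.mk_image_le.trans (CC_card hc))
    (Cardinal.mk_image_le.trans (CC_card hc'))
  have hgc : g • c ∈ (CC ζ : Set (RC S)) := CC_smul ζ g c hc
  have hgcut : cut (g • c) ν = cut c ν := by
    rw [cut_smul]
    exact hG.ccFix ν g _ (CC_cut ν hc) hg
  have hgp : g • p = p := by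
    obtain ⟨z, _, hz, hzp⟩ := hP.fin_supp p
    have := hP.smul_congr g 1 p z hzp (fun i hi => by rw [hg i (hz ν hi), one_smul])
    rwa [one_smul] at this
  -- the key fact
  have key : ∀ (η : Q.Lev) (u : RC S), c' ⊆ u → ∀ t ∈ c', ∀ t' ∈ g • c, tlev t = η →
      t.2.1 = t'.2.1 → ∀ q : P0 Q, ∀ d ∈ (CC (η : Stg Q) : Set (RC S)), cut u η ⊆ d →
      FE (CC (η : Stg Q)) (S.G t.1) (S.G t'.1) q d → t.2.2.Feq t'.2.2 q := by
    intro η u hu t ht t' ht' htl hl q d hd hud hFE
    have htl' : tlev t' = η := by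
      rw [← htl]
      unfold tlev
      rw [hl]
    by_cases hην : (η : Stg Q) < ν
    · have h1 : t' ∈ cut (g • c) ν := ⟨ht', by rw [htl']; exact hην⟩
      rw [hgcut] at h1
      exact (CC_OK hc' η).fn t ht t' (hcc' h1) htl hl q d hd ((cut_mono hu _).trans hud) hFE
    · exfalso
      rw [Set.mem_smul_set_iff_inv_smul_mem] at ht'
      have h1 : lab (g⁻¹ • t').2.1 ∈ ((fun t : Trip S => lab t.2.1) '' c) := ⟨_, ht', rfl⟩
      have h2 : lab (g⁻¹ • t').2.1 ∉ below ν := by
        intro h3
        apply hην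
        have := h3 t'.2.1.1 rfl
        rwa [← htl']
      have h3 := hgf _ h1 h2
      apply h3
      have h4 : g • lab (g⁻¹ • t').2.1 = lab t'.2.1 := by
        rw [← lab_smul]
        show lab (g • (g⁻¹ • t'.2.1)) = lab t'.2.1
        rw [smul_inv_smul]
      rw [h4, ← hl]
      exact ⟨t, ht, rfl⟩
  have hu : (⋃ i : Bool, (if i then g • c else c')) ∈ (CC ζ : Set (RC S)) := by
    have hsub : c' ⊆ ⋃ i : Bool, (if i then g • c else c') :=
      Set.subset_iUnion (fun i : Bool => if i then g • c else c') false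
    apply CC_union
    · intro i
      cases i
      · exact hc'
      · exact hgc
    · refine (Cardinal.mk_iUnion_le_sum_mk).trans ?_
      refine (Cardinal.sum_le_sum _ (fun _ => Q.K) (fun i => ?_)).trans ?_
      · cases i
        · exact CC_card hc'
        · exact CC_card hgc
      · rw [Cardinal.sum_const, Cardinal.lift_id, Cardinal.lift_id]
        refine (mul_le_mul' ((Cardinal.mk_lt_aleph0 (α := Bool)).le.trans (K_inf Q))
          le_rfl).trans_eq (Cardinal.mul_eq_self (K_inf Q))
    · intro η _ _ i j hij t ht t' ht' htl hl q d hd hud hFE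
      have htl' : tlev t' = η := by
        rw [← htl]
        unfold tlev
        rw [hl]
      cases i <;> cases j
      · exact absurd rfl hij
      · exact key η _ hsub t ht t' ht' htl hl q d hd hud hFE
      · exact feq_symm (key η _ hsub t' ht' t ht htl' hl.symm q d hd hud (FE_symm hFE))
      · exact absurd rfl hij
  have hsub : c' ⊆ ⋃ i : Bool, (if i then g • c else c') :=
    Set.subset_iUnion (fun i : Bool => if i then g • c else c') false
  have hsub' : g • c ⊆ ⋃ i : Bool, (if i then g • c else c') :=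
    Set.subset_iUnion (fun i : Bool => if i then g • c else c') true
  refine ⟨p', le_rfl, _, hu, hsub, ?_⟩
  have h1 := hinv g hg _ hpc
  refine hreg.down _ h1 p' ?_ _ hu hsub'
  show p' ≤ g • p
  rw [hgp]
  exact hp'

end Pool.Agent.Helper46.SP
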