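import Pool.Agent.Helper46.SP.A07a

open Cardinal Set
open scoped Pointwise

namespace Pool.Agent.Helper46.SP

variable {Q : Par} {S : CodeSys Q}

/-- (A13) -/
theorem st_MA (hO : ST_ofacts) (hR : ST_RN) : ST_MA := by
  intro Q S ζ hIP ι _ d Y hcl hY hc
  have hO := hO Q S
  have hR := hR Q
  have hd : ∀ i, d i ∈ (CC ζ : Set (RC S)) := fun i => hO.closedStage ζ _ _ (hcl i) (hY i)
  have hsubi : ∀ i, d i ⊆ ⋃ i, d i := fun i => Set.subset_iUnion d i
  apply CC_union hd
  · -- cardinality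
    haveI := Fintype.ofFinite ι
    refine (Cardinal.mk_iUnion_le_sum_mk).trans ?_
    refine (Cardinal.sum_le_sum _ (fun _ => Q.K) (fun i => CC_card (hd i))).trans ?_
    rw [Cardinal.sum_const, Cardinal.lift_id, Cardinal.lift_id]
    refine (mul_le_mul' ((Cardinal.mk_lt_aleph0 (α := ι)).le.trans (K_inf Q)) le_rfl).trans_eq
      (Cardinal.mul_eq_self (K_inf Q))
  · intro η hη hcut i j hij t ht t' ht' htl hl p e he hce hFE
    apply hR.dense
    intro q hq
    -- apply IP at level η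
    have htl' : tlev t' = η := by
      rw [← htl]
      unfold tlev
      rw [hl]
    have hci := hO.closedCut (η : Stg Q) _ _ (hcl i)
    have hcj := hO.closedCut (η : Stg Q) _ _ (hcl j)
    have hsub : ∀ i, cut (d i) η ⊆ e := fun i => (cut_mono (hsubi i) _).trans hce
    have hsn : SN η t.1 := (CC_OK (hd i) η).name t ht htl
    have hsn' : SN η t'.1 := (CC_OK (hd j) η).name t' ht' htl'
    obtain ⟨hA, hlab, _⟩ := (hcl i).ovr t ht
    obtain ⟨hA', hlab', _⟩ := (hcl j).ovr t' ht'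
    obtain ⟨p', hp', e', he', hee', B, hB, hBo, hFB⟩ :=
      hIP η hη (cut (d i) η) (cut (d j) η) (Y i ∩ below η) (Y j ∩ below η) hci hcj
        Set.inter_subset_right Set.inter_subset_right q e he (hsub i) (hsub j) t.1 t'.1 hsn hsn'
        (hO.uoverBelow η _ _ hsn hA) (hO.uoverBelow η _ _ hsn' hA') (FE_mono hFE hq subset_rfl)
    have hBo' : UOver B (Y i ∩ Y j) := hO.uoverMono _ _ _ hBo
      (fun x hx => ⟨hx.1.1, hx.2.1⟩)
    obtain ⟨c, hci', hcj', hcc⟩ := hc i j hij
    have hBlev : S.lev B = η := hB.lev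
    have hl1 : t.2.1.1 = S.lev B := by
      rw [hBlev]
      exact htl
    obtain ⟨v, _, hv⟩ := hcc.closed B t.2.1 (by rw [hBlev]; exact hB) hBo' hl1
      ⟨hlab, by rw [hl]; exact hlab'⟩
    refine ⟨p', hp', ?_⟩
    have h1 : t.2.2.Feq v p' :=
      (CC_OK (hd i) η).fn t ht (B, t.2.1, v) (hci' hv) htl rfl p' e' he'
        ((hsub i).trans hee') hFB
    have h2 : t'.2.2.Feq v p' := by
      refine (CC_OK (hd j) η).fn t' ht' (B, t.2.1, v) (hcj' hv) htl' hl.symm p' e' he'
        ((hsub j).trans hee') ?_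
      exact FE_trans (FE_symm (FE_mono hFE (hp'.trans hq) hee')) hFB
    exact hR.trans _ _ _ _ h1 (hR.symm _ _ _ h2)

end Pool.Agent.Helper46.SP
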