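import Pool.Agent.Helper46.SP.A15

open Cardinal Set
open scoped Pointwise

namespace Pool.Agent.Helper46.SP

variable {Q : Par} {S : CodeSys Q}

theorem smul_below (g : Grp Q) {Y : Set (Idx Q)} {ζ : Stg Q} (h : Y ⊆ below ζ) :
    g • Y ⊆ below ζ := by
  intro i hi
  rw [Set.mem_smul_set_iff_inv_smul_mem] at hi
  intro ξ hξ
  exact h hi ξ hξ

theorem fixes_smul_set {g : Grp Q} {Z : Set (Idx Q)} (h : Fixes g Z) : g • Z = Z := by
  ext i
  rw [Set.mem_smul_set_iff_inv_smul_mem]
  constructor
  · intro hi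
    have h1 := h _ hi
    rw [smul_inv_smul] at h1
    rw [h1]
    exact hi
  · intro hi
    rw [fixes_inv h i hi]
    exact hi

/-- (A14) -/
theorem st_Hom (hD : ST_dense) (hPerm : ST_perm) (hP : ST_P0) (hO : ST_ofacts) : ST_Hom := by
  intro Q S ζ hMA c Z hcl hZ b hreg hinv p d hpd hcd
  have hO := hO Q S
  have hP := hP Q
  have hPerm := hPerm Q
  apply hreg.dense _ _ (hO.closedStage ζ _ _ hcl hZ)
  intro p' hp' c' hc' hcc'
  have hfin : ∀ z : Set (Idx Q), z.Finite → #(Z ∪ z : Set (Idx Q)) ≤ Q.K := by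
    intro z hz
    refine (Cardinal.mk_union_le _ _).trans ?_
    refine (add_le_add hcl.card (hz.lt_aleph0.le.trans (K_inf Q))).trans ?_
    rw [Cardinal.add_eq_self (K_inf Q)]
  obtain ⟨z, hzf, hzb, hzp⟩ := hP.fin_supp p
  obtain ⟨z', hzf', hzb', hzp'⟩ := hP.fin_supp p'
  obtain ⟨d₁, Y, hY, hdd, hd₁, hzY, hYb⟩ := hD Q S ζ d (Z ∪ z) (hreg.sub _ hpd)
    (Set.union_subset hZ (hzb _)) (hfin z hzf)
  obtain ⟨c₁, Y', hY', hcc₁, hc₁, hzY', hYb'⟩ := hD Q S ζ c' (Z ∪ z') hc'
    (Set.union_subset hZ (hzb' _)) (hfin z' hzf')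
  have hZY : Z ⊆ Y := fun i hi => hzY (Or.inl hi)
  have hZY' : Z ⊆ Y' := fun i hi => hzY' (Or.inl hi)
  have hpY : p.res Y = p := hP.res_eq_of p z Y hzp (fun i hi => hzY (Or.inr hi))
  have hpY' : p'.res Y' = p' := hP.res_eq_of p' z' Y' hzp' (fun i hi => hzY' (Or.inr hi))
  obtain ⟨g, hg, hgY⟩ := hPerm.fresh Y Y' Z hY.card hY'.card hZY
  have hinter : (g • Y ∩ Y' : Set (Idx Q)) = Z := by
    ext i
    constructor
    · rintro ⟨h1, h2⟩
      rw [Set.mem_smul_set_iff_inv_smul_mem] at h1
      by_contra h3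
      have h4 : g⁻¹ • i ∉ Z := by
        intro h4
        have h5 := hg _ h4
        rw [smul_inv_smul] at h5
        rw [← h5] at h4
        exact h3 h4
      have h5 := hgY _ h1 h4
      rw [smul_inv_smul] at h5
      exact h5 h2
    · intro hi
      refine ⟨?_, hZY' hi⟩
      rw [Set.mem_smul_set_iff_inv_smul_mem, fixes_inv hg i hi]
      exact hZY hi
  have hgc : g • c = c := by
    have := hO.coverCongr g 1 c Z hcl.ovr (fun i hi => by rw [hg i hi, one_smul])
    rwa [one_smul] at this
  have hcg : c ⊆ g • d₁ := by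
    rw [← hgc]
    exact Set.smul_set_mono (hcd.trans hdd)
  have hcc'' : c ⊆ c₁ := hcc'.trans hcc₁
  have hMA' := hMA Bool (fun i => if i then g • d₁ else c₁) (fun i => if i then g • Y else Y')
    (by
      intro i
      cases i
      · exact hY'
      · exact hO.closedSmul g _ _ hY)
    (by
      intro i
      cases i
      · exact hYb'
      · exact smul_below g hYb)
    (by
      intro i j hij
      refine ⟨c, ?_, ?_, ?_⟩
      · cases i
        · exact hcc''
        · exact hcg
      · cases j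
        · exact hcc''
        · exact hcg
      · cases i <;> cases j
        · exact absurd rfl hij
        · show Closed c (Y' ∩ g • Y)
          rw [Set.inter_comm, hinter]
          exact hcl
        · show Closed c (g • Y ∩ Y')
          rw [hinter]
          exact hcl
        · exact absurd rfl hij)
  set u : RC S := ⋃ i : Bool, (if i then g • d₁ else c₁) with hu
  have hgd : g • d₁ ⊆ u := Set.subset_iUnion (fun i : Bool => if i then g • d₁ else c₁) true
  have hcu : c₁ ⊆ u := Set.subset_iUnion (fun i : Bool => if i then g • d₁ else c₁) false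
  have hcompat : (g • p).Compat p' := by
    apply hP.compat_over (g • p) p' (g • Y) Y'
    · rw [hP.smul_res, hpY]
    · exact hpY'
    · rw [hinter, hP.compat_iff]
      have h1 : (g • p).res Z = p.res Z := by
        have h2 := hP.smul_res g p Z
        rw [fixes_smul_set hg] at h2
        rw [h2]
        have h3 := hP.smul_congr g 1 (p.res Z) Z (by rw [hP.res_res, Set.inter_self])
          (fun i hi => by rw [hg i hi, one_smul])
        rwa [one_smul] at h3
      rw [h1]
      refine ⟨p'.res Z, ?_, le_rfl⟩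
      have h2 := hP.res_mono _ _ Z hp'
      rwa [hP.res_res, Set.inter_self] at h2
  obtain ⟨r, hr1, hr2⟩ := (hP.compat_iff _ _).1 hcompat
  refine ⟨r, hr2, u, hMA', hcc₁.trans hcu, ?_⟩
  have h1 : (p, d₁) ∈ b := hreg.down _ hpd p le_rfl d₁ hd₁ hdd
  have h2 := hinv g hg _ h1
  exact hreg.down _ h2 r hr1 u hMA' hgd

end Pool.Agent.Helper46.SP
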