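import Pool.Agent.Helper46.SP.A07a

open Cardinal Set
open scoped Pointwise

namespace Pool.Agent.Helper46.SP

variable {Q : Par} {S : CodeSys Q}

theorem P0.top_res (Z : Set (Idx Q)) : (⊤ : P0 Q).res Z = ⊤ := by
  apply P0.ext
  funext x
  simp only [P0.res, P0.top_val, ite_self]

theorem regFeq (hR : RNFacts Q) (ζ : Stg Q) (v v' : RN Q) :
    RegB ζ {y : P0 Q × RC S | y.2 ∈ CC ζ ∧ v.Feq v' y.1} := by
  refine ⟨fun x hx => hx.1, fun x hx p hp c hc _ => ⟨hc, hR.mono _ _ _ _ hx.2 hp⟩,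
    fun p c hc h => ⟨hc, ?_⟩⟩
  apply hR.dense
  intro q hq
  obtain ⟨p'', hp'', c'', _, _, h3⟩ := h q hq c hc subset_rfl
  exact ⟨p'', hp'', h3.2⟩

theorem fixes_inv {g : Grp Q} {Z : Set (Idx Q)} (h : Fixes g Z) : Fixes g⁻¹ Z := by
  intro i hi
  rw [inv_smul_eq_iff, h i hi]

/-- (A15) -/
theorem st_Res (hRF : ST_rfacts) (hO : ST_ofacts) (hR : ST_RN) : ST_Res := by
  intro Q S ζ hHom d Y hcl hY Z hZY hDZ
  have hRF := hRF Q S
  have hO := hO Q S
  have hR := hR Q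
  set c : RC S := rst d Z with hcdef
  have hcd : c ⊆ d := hO.rstSub d Z
  have hd : d ∈ (CC ⊤ : Set (RC S)) := hcl.cond
  have hdζ : d ∈ (CC ζ : Set (RC S)) := hO.closedStage ζ _ _ hcl hY
  have hcO : COver c Z := hO.rstCover d Z hDZ
  have hclosed : ∀ (A : S.U) (l : Lab Q), SN (S.lev A) A → UOver A Z → l.1 = S.lev A →
      lab l ∈ Z → ∃ v : RN Q, v.Over Z ∧ (A, l, v) ∈ c := by
    intro A l hA hAZ hl hlZ
    obtain ⟨v, _, hv⟩ := hcl.closed A l hA (hO.uoverMono _ _ _ hAZ hZY) hl (hZY hlZ)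
    exact ⟨v, hDZ _ hv hAZ hlZ, hv, hAZ, hlZ⟩
  have hZK : #Z ≤ Q.K := (Cardinal.mk_le_mk_of_subset hZY).trans hcl.card
  have hcc : c ∈ (CC ⊤ : Set (RC S)) := by
    apply CC_of ((Cardinal.mk_le_mk_of_subset hcd).trans (CC_card hd))
      (fun t _ => WithTop.coe_lt_top _)
    intro η _ hcut
    by_cases hη : (η : Stg Q) < ζ
    swap
    · have h1 : ∀ t ∈ c, tlev t ≠ η := by
        intro t ht h2
        apply hη
        rw [← h2]
        exact CC_lev hdζ t (hcd ht)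
      exact ⟨fun t ht h2 => absurd h2 (h1 t ht), fun t ht h2 => absurd h2 (h1 t ht),
        fun t ht _ _ h2 => absurd h2 (h1 t ht)⟩
    have hOKd := CC_OK hd η
    have hclη : Closed (cut c η) (Z ∩ below (η : Stg Q)) := by
      refine ⟨CC_mono le_top hcut, (Cardinal.mk_le_mk_of_subset Set.inter_subset_left).trans hZK,
        ?_, ?_⟩
      · rintro t ⟨ht, htη⟩
        obtain ⟨h1, h2, h3⟩ := hcO t ht
        refine ⟨?_, ⟨h2, ?_⟩, hR.over_below _ _ _ h3⟩
        · have h4 := hO.uoverBelow (tlev t) _ _ (hO.names ζ d hdζ t (hcd ht)) h1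
          exact hO.uoverMono _ _ _ h4 (Set.inter_subset_inter_right _ (below_mono htη.le))
        · intro ν hν
          have h5 : t.2.1.1 = ν := Option.some_injective _ hν
          rw [← h5]
          exact htη
      · intro A l hA hAZ hl hlZ
        obtain ⟨v, hv1, hv2⟩ := hclosed A l hA (hO.uoverMono _ _ _ hAZ Set.inter_subset_left) hl
          hlZ.1
        exact ⟨v, hR.over_below _ _ _ hv1, hv2, hlZ.2 l.1 rfl⟩
    have hsub : cut c η ⊆ cut d η := cut_mono hcd _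
    have hcutd : cut d η ∈ (CC (η : Stg Q) : Set (RC S)) := CC_cut _ hd
    -- names of level η over Z
    have hfix : ∀ t ∈ c, tlev t = η → ∀ g : Grp Q, Fixes g (Z ∩ below (η : Stg Q)) →
        g • t.1 = t.1 ∧ g • t.2.2 = t.2.2 := by
      intro t ht htl g hg
      obtain ⟨h1, _, h3⟩ := hcO t ht
      have h4 := hO.uoverBelow η _ _ (hOKd.name t (hcd ht) htl) h1
      refine ⟨?_, ?_⟩
      · have := hO.uoverCongr g 1 _ _ h4 (fun i hi => by rw [hg i hi, one_smul])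
        rwa [one_smul] at this
      · have := hR.smul_congr g 1 _ _ (hR.over_below _ _ (η : Stg Q) h3)
          (fun i hi => by rw [hg i hi, one_smul])
        rwa [one_smul] at this
    refine ⟨fun t ht h2 => hOKd.name t (hcd ht) h2, fun t ht htl p e he hce x hFM => ?_,
      fun t ht t' ht' htl hl p e he hce hFE => ?_⟩
    · -- membership
      set b : Set (P0 Q × RC S) := {y | y.2 ∈ CC (η : Stg Q) ∧ ∀ x : RN Q, ∀ p ≤ y.1,
        ∀ c ∈ CC (η : Stg Q), y.2 ⊆ c → FM (CC (η : Stg Q)) x (S.G t.1) p c →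
          FM (CC (η : Stg Q)) t.2.2 (S.G t.1) p c} with hb
      have hreg : RegB (η : Stg Q) b := by
        refine ⟨fun y hy => hy.1, fun y hy p hp c hc hyc => ⟨hc, fun x p' hp' c' hc' hcc' =>
          hy.2 x p' (hp'.trans hp) c' hc' (hyc.trans hcc')⟩, fun p c hc h => ⟨hc, fun x => ?_⟩⟩
        have h1 := hRF.regImp (η : Stg Q) _ _ (hRF.regFM (η : Stg Q) x (S.G t.1))
          (hRF.regFM (η : Stg Q) t.2.2 (S.G t.1))
        have h2 := h1.dense p c hc (fun p' hp' c' hc' hcc' => by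
          obtain ⟨p'', hp'', c'', hc'', hcc'', h3, h4⟩ := h p' hp' c' hc' hcc'
          exact ⟨p'', hp'', c'', hc'', hcc'', h3, fun p₁ hp₁ c₁ hc₁ hcc₁ h5 =>
            ⟨hc₁, h4 x p₁ hp₁ c₁ hc₁ hcc₁ h5.2⟩⟩)
        intro p' hp' c' hc' hcc' h3
        exact (h2.2 p' hp' c' hc' hcc' ⟨hc', h3⟩).2
      have hinv : InvB (Z ∩ below (η : Stg Q)) b := by
        intro g hg y hy
        refine ⟨CC_smul _ g _ hy.1, fun x p hp c hc hyc hFM => ?_⟩
        obtain ⟨h1, h2⟩ := hfix t ht htl g⁻¹ (fixes_inv hg)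
        obtain ⟨h1', h2'⟩ := hfix t ht htl g hg
        have h3 := FM_smul (CC_smul (S := S) (η : Stg Q)) g⁻¹ hFM
        rw [← S.G_smul, h1] at h3
        have h4 : g⁻¹ • p ≤ y.1 := by
          have := P0.smul_le g⁻¹ _ _ hp
          rwa [show g⁻¹ • (g • y).1 = y.1 from inv_smul_smul g y.1] at this
        have h5 : y.2 ⊆ g⁻¹ • c := by
          rw [Set.subset_smul_set_iff, inv_inv]
          exact hyc
        have h6 := hy.2 _ _ h4 _ (CC_smul _ _ _ hc) h5 h3
        have h7 := FM_smul (CC_smul (S := S) (η : Stg Q)) g h6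
        rwa [← S.G_smul, h1', h2', smul_inv_smul, smul_inv_smul] at h7
      have hmem : ((⊤ : P0 Q), cut d η) ∈ b :=
        ⟨hcutd, fun x p _ c hc hdc hF => hOKd.mem t (hcd ht) htl p c hc hdc x hF⟩
      have h1 := hHom η hη _ _ hclη Set.inter_subset_right b hreg hinv _ _ hmem hsub
      rw [P0.top_res] at h1
      exact h1.2 x p le_top e he hce hFM
    · -- uniqueness
      set b : Set (P0 Q × RC S) := {y | y.2 ∈ CC (η : Stg Q) ∧ ∀ p ≤ y.1,
        ∀ c ∈ CC (η : Stg Q), y.2 ⊆ c →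
          (p, c) ∈ {y : P0 Q × RC S | y.2 ∈ CC (η : Stg Q) ∧
            FE (CC (η : Stg Q)) (S.G t.1) (S.G t'.1) y.1 y.2} →
          (p, c) ∈ {y : P0 Q × RC S | y.2 ∈ CC (η : Stg Q) ∧ t.2.2.Feq t'.2.2 y.1}} with hb
      have hreg : RegB (η : Stg Q) b := hRF.regImp _ _ _ (hRF.regFE _ _ _) (regFeq hR _ _ _)
      have htl' : tlev t' = η := by
        rw [← htl]
        unfold tlev
        rw [hl]
      have hinv : InvB (Z ∩ below (η : Stg Q)) b := by
        intro g hg y hy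
        refine ⟨CC_smul _ g _ hy.1, fun p hp c hc hyc hF => ⟨hc, ?_⟩⟩
        obtain ⟨h1, _⟩ := hfix t ht htl g⁻¹ (fixes_inv hg)
        obtain ⟨h2, _⟩ := hfix t' ht' htl' g⁻¹ (fixes_inv hg)
        obtain ⟨_, h1'⟩ := hfix t ht htl g hg
        obtain ⟨_, h2'⟩ := hfix t' ht' htl' g hg
        have h3 := FE_smul (CC_smul (S := S) (η : Stg Q)) g⁻¹ hF.2
        rw [← S.G_smul, ← S.G_smul, h1, h2] at h3
        have h4 : g⁻¹ • p ≤ y.1 := by
          have := P0.smul_le g⁻¹ _ _ hp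
          rwa [show g⁻¹ • (g • y).1 = y.1 from inv_smul_smul g y.1] at this
        have h5 : y.2 ⊆ g⁻¹ • c := by
          rw [Set.subset_smul_set_iff, inv_inv]
          exact hyc
        have h6 := (hy.2 _ h4 _ (CC_smul _ _ _ hc) h5 ⟨CC_smul _ _ _ hc, h3⟩).2
        have h7 := smul_feq g h6
        rwa [h1', h2', show g • (g⁻¹ • p) = p from smul_inv_smul g p] at h7
      have hmem : ((⊤ : P0 Q), cut d η) ∈ b :=
        ⟨hcutd, fun p _ c hc hdc hF =>
          ⟨hc, hOKd.fn t (hcd ht) t' (hcd ht') htl hl p c hc hdc hF.2⟩⟩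
      have h1 := hHom η hη _ _ hclη Set.inter_subset_right b hreg hinv _ _ hmem hsub
      rw [P0.top_res] at h1
      exact (h1.2 p le_top e he hce ⟨he, hFE⟩).2
  exact ⟨hcc, hZK, hcO, hclosed⟩

end Pool.Agent.Helper46.SP
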