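import Pool.Agent.Helper46.SP.A15

open Cardinal Set
open scoped Pointwise

namespace Pool.Agent.Helper46.SP

variable {Q : Par} {S : CodeSys Q}

/-- (A17b) -/
theorem st_IP (hD : ST_dense) (hH : ST_hull) (hRF : ST_rfacts) (hO : ST_ofacts) (hP : ST_P0) :
    ST_IP := by
  intro Q S ζ hStar hGen _ d₁ d₂ Y₁ Y₂ h1 h2 hY1 hY2 p e he h1e h2e A A' hA hA' hAo hA'o hFE
  have hRF := hRF Q S
  have hO := hO Q S
  have hP := hP Q
  obtain ⟨z, hzf, hzb, hzp⟩ := hP.fin_supp p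
  obtain ⟨e', Y, hcl, hee', he', hYY, hYb⟩ := hD Q S (ζ : Stg Q) e (Y₁ ∪ Y₂ ∪ z) he
    (Set.union_subset (Set.union_subset hY1 hY2) (hzb _)) (by
      refine (Cardinal.mk_union_le _ _).trans ?_
      refine (add_le_add (Cardinal.mk_union_le _ _) (hzf.lt_aleph0.le.trans (K_inf Q))).trans ?_
      refine (add_le_add (add_le_add h1.card h2.card) le_rfl).trans ?_
      rw [Cardinal.add_eq_self (K_inf Q), Cardinal.add_eq_self (K_inf Q)])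
  have hlevA : S.lev A = ζ := hA.lev
  have hlevA' : S.lev A' = ζ := hA'.lev
  have key : ∀ (d : RC S) (W : Set (Idx Q)) (C : S.U), Closed d W → W ⊆ below (ζ : Stg Q) →
      d ⊆ e → S.lev C = ζ → UOver C W →
      ∃ Z ⊆ W, #Z ≤ Q.κ ζ ∧ DClosed e' Z ∧ UOver C Z := by
    intro d W C hd hW hde hC hCW
    obtain ⟨z₁, hz₁, hz₁c, hz₁f⟩ := hCW
    rw [hC] at hz₁c
    obtain ⟨Z, hzZ, hZW, hZc, hZd⟩ := hH Q S ζ d W z₁ hd hW hz₁ hz₁c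
    refine ⟨Z, hZW, hZc, ?_, z₁, hzZ, by rw [hC]; exact hz₁c, hz₁f⟩
    have h3 := (hO.closedSub d e' W hd (hde.trans hee') hcl.cond).2
    intro t ht htZ htl
    apply hZd t _ htZ htl
    rw [← h3]
    exact ⟨ht, hO.uoverMono _ _ _ htZ hZW, hZW htl⟩
  obtain ⟨Z₁, hZ1Y, hZ1c, hZ1d, hAZ⟩ := key d₁ Y₁ A h1 hY1 h1e hlevA hAo
  obtain ⟨Z₂, hZ2Y, hZ2c, hZ2d, hA'Z⟩ := key d₂ Y₂ A' h2 hY2 h2e hlevA' hA'o
  have hZ1Y' : Z₁ ⊆ Y := fun i hi => hYY (Or.inl (Or.inl (hZ1Y hi)))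
  have hZ2Y' : Z₂ ⊆ Y := fun i hi => hYY (Or.inl (Or.inr (hZ2Y hi)))
  have hpY : p.res Y = p := hP.res_eq_of p z Y hzp (fun i hi => hYY (Or.inr hi))
  have hstar := hStar e' Y Z₁ Z₂ p A A' hcl hYb hpY hZ1Y' hZ2Y' hZ1d hZ2d hA hA' hAZ hA'Z
    (FE_mono hFE le_rfl hee')
  -- the family
  set HH : RN Q → P0 Q → RC S → Prop := fun x q f => ∃ g : Grp Q, Fixes g (Z₁ ∩ Z₂) ∧
    q ≤ g • p ∧ g • e' ⊆ f ∧ FM (CC (ζ : Stg Q)) x (S.G (g • A)) q f with hHH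
  set BB : RN Q → Set (P0 Q × RC S) := fun x => {y | y.2 ∈ CC (ζ : Stg Q) ∧
    ∀ q ≤ y.1, ∀ f ∈ (CC (ζ : Stg Q) : Set (RC S)), y.2 ⊆ f → ∃ q' ≤ q,
      ∃ f' ∈ (CC (ζ : Stg Q) : Set (RC S)), f ⊆ f' ∧ HH x q' f'} with hBB
  have hreg : ∀ x, RegB (ζ : Stg Q) (BB x) := by
    intro x
    refine ⟨fun y hy => hy.1, fun y hy q hq f hf hyf => ⟨hf, fun q' hq' f' hf' hff' =>
      hy.2 q' (hq'.trans hq) f' hf' (hyf.trans hff')⟩, fun q f hf h => ⟨hf, fun q' hq' f' hf' hff' =>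
        ?_⟩⟩
    obtain ⟨q₁, hq₁, f₁, hf₁, hff₁, h3⟩ := h q' hq' f' hf' hff'
    obtain ⟨q₂, hq₂, f₂, hf₂, hff₂, h4⟩ := h3.2 q₁ le_rfl f₁ hf₁ subset_rfl
    exact ⟨q₂, le_trans hq₂ hq₁, f₂, hf₂, hff₁.trans hff₂, h4⟩
  have hext : ∀ (x x' : RN Q) (q : P0 Q) (f : RC S), (q, f) ∈ BB x → x.Feq x' q →
      (q, f) ∈ BB x' := by
    intro x x' q f h hx
    refine ⟨h.1, fun q' hq' f' hf' hff' => ?_⟩
    obtain ⟨q'', hq'', f'', hf'', hff'', g, h3, h4, h5, h6⟩ := h.2 q' hq' f' hf' hff'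
    have hx' : x.Feq x' q'' := fun r hr n => hx r (hr.trans (hq''.trans hq')) n
    exact ⟨q'', hq'', f'', hf'', hff'', g, h3, h4, h5, hRF.fmCongr _ _ _ _ _ _ hx' h6⟩
  have hinv : ∀ g : Grp Q, Fixes g (Z₁ ∩ Z₂) → ∀ x, ∀ y ∈ BB x, g • y ∈ BB (g • x) := by
    intro h hh x y hy
    refine ⟨CC_smul _ _ _ hy.1, fun q hq f hf hyf => ?_⟩
    have h4 : h⁻¹ • q ≤ y.1 := by
      have := P0.smul_le h⁻¹ _ _ hq
      rwa [show h⁻¹ • (h • y).1 = y.1 from inv_smul_smul h y.1] at this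
    have h5 : y.2 ⊆ h⁻¹ • f := by
      rw [Set.subset_smul_set_iff, inv_inv]
      exact hyf
    obtain ⟨q', hq', f', hf', hff', g, h6, h7, h8, h9⟩ := hy.2 _ h4 _ (CC_smul _ _ _ hf) h5
    refine ⟨h • q', ?_, h • f', CC_smul _ _ _ hf', ?_, h * g, ?_, ?_, ?_, ?_⟩
    · have := P0.smul_le h _ _ hq'
      rwa [smul_inv_smul] at this
    · rw [Set.subset_smul_set_iff]
      exact hff'
    · intro i hi
      rw [mul_smul, h6 i hi, hh i hi]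
    · rw [mul_smul]
      exact P0.smul_le h _ _ h7
    · rw [mul_smul]
      exact Set.smul_set_mono h8
    · have h10 := FM_smul (CC_smul (S := S) (ζ : Stg Q)) h h9
      rwa [← S.G_smul, ← mul_smul] at h10
  have hZ0c : #(Z₁ ∩ Z₂ : Set (Idx Q)) ≤ Q.κ ζ :=
    (Cardinal.mk_le_mk_of_subset Set.inter_subset_left).trans hZ1c
  obtain ⟨B, hB, hBf, hBB'⟩ := hGen BB hreg hext (Z₁ ∩ Z₂)
    (fun i hi => hYb (hZ1Y' hi.1)) hZ0c hinv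
  refine ⟨p, le_rfl, e', he', hee', B, hB, ⟨Z₁ ∩ Z₂, fun i hi => ⟨hZ1Y hi.1, hZ2Y hi.2⟩,
    by rw [hB.lev]; exact hZ0c, hBf⟩, ?_⟩
  intro q hq f hf hef x
  rw [hBB' x q f hf]
  constructor
  · intro hFM
    refine ⟨hf, fun q' hq' f' hf' hff' => ⟨q', le_rfl, f', hf', subset_rfl, 1, ?_, ?_, ?_, ?_⟩⟩
    · intro i _
      rw [one_smul]
    · rw [one_smul]
      exact hq'.trans hq
    · rw [one_smul]
      exact hef.trans hff'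
    · rw [one_smul]
      exact FM_mono hFM hq' hff'
  · intro h
    refine ((hRF.regFM (ζ : Stg Q) x (S.G A)).dense q f hf (fun q' hq' f' hf' hff' => ?_)).2
    obtain ⟨q'', hq'', f'', hf'', hff'', g, h3, h4, h5, h6⟩ := h.2 q' hq' f' hf' hff'
    refine ⟨q'', hq'', f'', hf'', hff'', hf'', ?_⟩
    have h7 := hstar g h3 q'' f'' hf'' ((hq''.trans hq').trans hq)
      (hef.trans (hff'.trans hff'')) h4 h5
    exact (h7 q'' le_rfl f'' hf'' subset_rfl x).2 h6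

/-- (A18) -/
theorem st_core (hMA : ST_MA) (hHom : ST_Hom) (hRes : ST_Res) (hGen : ST_Gen) (hStar : ST_Star)
    (hIP : ST_IP) : ST_core := by
  intro Q S
  have key : ∀ ζ : Q.Lev, IP S ζ := by
    intro ζ
    induction ζ using WellFoundedLT.induction with
    | ind ζ ih =>
      have h1 : ∀ ξ : Stg Q, ξ ≤ (ζ : Stg Q) → MA S ξ := by
        intro ξ hξ
        apply hMA
        intro η hη
        exact ih η (by exact_mod_cast hη.trans_le hξ)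
      have h2 : Res S (ζ : Stg Q) := hRes Q S _ (fun ξ hξ => hHom Q S _ (h1 _ hξ.le))
      have h3 : Gen S ζ := hGen Q S ζ (hHom Q S _ (h1 _ le_rfl)) h2
      exact hIP Q S ζ (hStar Q S ζ (h1 _ le_rfl) h2) h3 h2
  have h1 : ∀ ζ : Stg Q, MA S ζ := fun ζ => hMA Q S ζ (fun ξ _ => key ξ)
  have h2 : ∀ ζ : Stg Q, Hom S ζ := fun ζ => hHom Q S ζ (h1 ζ)
  have h3 : ∀ ζ : Stg Q, Res S ζ := fun ζ => hRes Q S ζ (fun ξ _ => h2 _)
  exact ⟨fun ζ => ⟨h1 ζ, h2 ζ, h3 ζ⟩, fun ζ => ⟨hGen Q S ζ (h2 _) (h3 _), key ζ⟩⟩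

end Pool.Agent.Helper46.SP
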