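import Pool.Agent.Helper46.SP.Goal
import Pool.Agent.Helper46.SP.A13
import Pool.Agent.Helper46.SP.A17b
import Pool.Agent.Helper46.SP.A08
import Pool.Agent.Helper28.SP.A01
import Pool.Agent.Helper28.SP.A04
import Pool.Agent.Helper37.SP.A02
import Pool.Agent.Helper37.SP.A09a
import Pool.Agent.Helper37.SP.A16
import Pool.Agent.Helper37.SP.C1
import Pool.Agent.Helper37.SP.D2
import Pool.Agent.Helper53.SP.A06
import Pool.Agent.Helper55.SP.A07b
import Pool.Agent.Helper55.SP.A07d
import Pool.Agent.Helper34.SP.A07c
import Pool.Agent.Helper64.SP.B4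
import Pool.Agent.Helper64.SP.C0
import Pool.Agent.Helper77.SP.A10b
import Pool.Agent.Helper77.SP.D1
import Pool.Agent.Helper77.SP.D3
import Pool.Agent.Helper78.SP.A17a
import Pool.Agent.Helper81.SP.A03
import Pool.Agent.Helper84.SP.F2a
import Pool.Agent.Helper84.SP.A09b
import Pool.Agent.Helper94.SP.B4a
import Pool.Agent.Helper94.SP.A11
import Pool.Agent.Helper27.SP.F2b
import Pool.Agent.Helper23.SPF.F3

/-!
# Assembly
-/

namespace Pool.Agent.Helper46.SP

theorem all_basicEq : ST_basicEq.{0} := Helper94.SP.st_B1
theorem all_forcesFacts : ST_forcesFacts.{0} := Helper94.SP.st_B2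
theorem all_setFacts : ST_setFacts.{0} := Helper94.SP.st_B3

theorem all_forcesZF : ST_forcesZF.{0} := by
  intro P G _ _ _ _ S
  have hB := all_basicEq P
  have hF := all_forcesFacts P G S
  exact
    { ext := Helper94.SP.forces_axExt S
      pair := Helper94.SP.forces_axPair S
      union := Helper94.SP.forces_axUnion S
      power := fun p => Helper64.SP.forces_power hB hF p
      inf := Helper94.SP.forces_axInf S
      found := Helper94.SP.forces_axFound S
      sep := fun k φ v p hv => Helper64.SP.forces_sep hB hF k φ v p hv
      repl := fun k φ v p hv => Helper64.SP.forces_repl hB hF k φ v p hv }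

theorem all_model : ST_model.{0} :=
  Helper64.SP.st_model (st_henkin all_basicEq all_forcesFacts) all_forcesZF
    Helper64.SP.st_satZF

theorem all_RN : ST_RN := st_RN st_P0
theorem all_rfacts : ST_rfacts := Helper55.SP.st_rfacts st_cfacts all_RN
theorem all_gfacts : ST_gfacts := Helper34.SP.st_A07c
theorem all_ofacts : ST_ofacts := Helper55.SP.st_ofacts st_cfacts all_gfacts all_RN
theorem all_tail : ST_tail := st_tail st_perm st_P0 all_gfacts
theorem all_full : ST_full := st_full st_ccc st_P0ccc st_cfacts all_RN
theorem all_tot : ST_tot := st_tot all_full all_rfacts all_RN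
theorem all_count : ST_count :=
  st_count (st_count0 all_ofacts all_gfacts all_RN st_P0 st_perm) all_ofacts
theorem all_dense : ST_dense :=
  Helper94.SP.st_A11 all_tot all_count st_cfacts all_ofacts all_RN
theorem all_hull : ST_hull := Helper94.SP.st_A12 all_count all_ofacts all_RN

theorem all_core : ST_core :=
  st_core (st_MA all_ofacts all_RN) (st_Hom all_dense st_perm st_P0 all_ofacts)
    (st_Res all_rfacts all_ofacts all_RN)
    (st_Gen all_dense all_hull all_count st_cfacts all_gfacts all_ofacts all_RN st_P0)
    (Helper78.SP.st_Star all_rfacts all_gfacts all_ofacts all_dense st_perm st_P0)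
    (st_IP all_dense all_hull all_rfacts all_ofacts st_P0)

theorem all_good : ST_good := st_good st_P0ccc st_cfacts st_P0
theorem all_reals : ST_reals.{0} := st_reals st_ccc all_basicEq
theorem all_realFacts : ST_realFacts :=
  st_realFacts st_P0ccc st_cfacts st_P0 all_reals all_RN
theorem all_dc : ST_dc.{0} := st_dc all_basicEq all_forcesFacts all_setFacts st_ccc
theorem all_spr : ST_spr :=
  Helper27.SPR.st_F2b all_tail all_tot all_core st_cfacts all_RN all_basicEq all_forcesFacts
    all_setFacts all_realFacts

theorem all_nwor : ST_nwor :=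
  Helper23.SPF.st_nwor all_realFacts all_core all_dense all_hull st_perm st_P0 all_ofacts

theorem goal : Goal :=
  goal_of st_par st_codes Helper64.SP.st_macros all_model all_dc all_good all_spr all_nwor

end Pool.Agent.Helper46.SP
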