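import Pool.Agent.Helper46.SP.Model

/-!
# ZF + DC + SP(ℝ) + ¬ WO(ℝ): models, formulas, symmetric systems, forcing

Basic definitions for MP_913f70_lc.  The ground universe is `Type u`; names over a preorder
`P : Type u` live in `Type (u + 1)`.
-/

universe u

namespace Pool.Agent.Helper46.SP

/-! ## Names and forcing -/

/-- Names over `P`: a name is a family of names, each labelled by a condition. -/
inductive Name (P : Type u) : Type (u + 1)
  | mk (ι : Type u) (A : ι → Name P) (B : ι → P) : Name P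

namespace Name

variable {P : Type u}

/-- `p` forces `a = b`. -/
def FEq [Preorder P] : Name P → Name P → P → Prop
  | mk α A B, mk β A' B' => fun p =>
    (∀ i : α, ∀ q ≤ p, q ≤ B i → ∃ r ≤ q, ∃ j : β, r ≤ B' j ∧ FEq (A i) (A' j) r) ∧
    (∀ j : β, ∀ q ≤ p, q ≤ B' j → ∃ r ≤ q, ∃ i : α, r ≤ B i ∧ FEq (A i) (A' j) r)

/-- `p` forces `a ∈ b`. -/
def FMem [Preorder P] (a : Name P) : Name P → P → Prop
  | mk β A' B' => fun p => ∀ q ≤ p, ∃ r ≤ q, ∃ j : β, r ≤ B' j ∧ FEq a (A' j) r

/-- The action of `g` on names. -/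
def act {G : Type u} [SMul G P] (g : G) : Name P → Name P
  | mk α A B => mk α (fun i => act g (A i)) (fun i => g • B i)

/-- The canonical name of the von Neumann numeral `n`. -/
def num [Preorder P] [OrderTop P] (n : ℕ) : Name P :=
  mk (ULift.{u} (Fin n)) (fun i => num i.down.1) (fun _ => ⊤)
termination_by n
decreasing_by exact i.down.2

/-- The canonical name of `ω`. -/
def omega [Preorder P] [OrderTop P] : Name P :=
  mk (ULift.{u} ℕ) (fun n => num n.down) (fun _ => ⊤)

/-- The canonical name `{(n, q) : q ∈ X n}` of a set of natural numbers. -/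
def realName {P₀ : Type u} (f : P₀ → P) [Preorder P] [OrderTop P] (X : ℕ → Set P₀) : Name P :=
  mk (Σ n : ℕ, {q : P₀ // q ∈ X n}) (fun t => num t.1) (fun t => f t.2.1)

end Name

open Name

/-- A symmetric system on the preorder `P`: a group acting by automorphisms and a normal filter
of subgroups. -/
structure SymSys (P G : Type u) [Preorder P] [OrderTop P] [Group G] [MulAction G P] where
  smul_le : ∀ (g : G) (p q : P), p ≤ q → g • p ≤ g • q
  smul_top : ∀ g : G, g • (⊤ : P) = ⊤
  F : Set (Subgroup G)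
  top_mem : ⊤ ∈ F
  inf_mem : ∀ H ∈ F, ∀ K ∈ F, H ⊓ K ∈ F
  mono : ∀ H ∈ F, ∀ K, H ≤ K → K ∈ F
  conj_mem : ∀ H ∈ F, ∀ g : G, ∃ K ∈ F, ∀ k ∈ K, g⁻¹ * k * g ∈ H

namespace SymSys

variable {P G : Type u} [Preorder P] [OrderTop P] [Group G] [MulAction G P]

/-- The name `a` is symmetric: all `g` in some group of the filter satisfy `⊤ ⊩ g a = a`. -/
def IsSym (S : SymSys P G) (a : Name P) : Prop :=
  ∃ H ∈ S.F, ∀ g ∈ H, FEq (act g a) a ⊤

/-- The hereditarily symmetric names. -/
def IsHS (S : SymSys P G) : Name P → Prop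
  | Name.mk α A B => (∀ i : α, IsHS S (A i)) ∧ S.IsSym (Name.mk α A B)

/-- `p` forces `φ(v)`, in the symmetric model. -/
def Forces (S : SymSys P G) : {k : ℕ} → Fml k → (Fin k → Name P) → P → Prop
  | _, .mem i j, v, p => FMem (v i) (v j) p
  | _, .eq i j, v, p => FEq (v i) (v j) p
  | _, .neg φ, v, p => ∀ q ≤ p, ¬ Forces S φ v q
  | _, .and φ ψ, v, p => Forces S φ v p ∧ Forces S ψ v p
  | _, .all φ, v, p => ∀ x, S.IsHS x → Forces S φ (Fin.cons x v) p

end SymSys

/-- Every antichain of `P` is countable. -/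
def CCC (P : Type u) [Preorder P] : Prop :=
  ∀ A : Set P, (∀ a ∈ A, ∀ b ∈ A, a ≠ b → ¬ ∃ r, r ≤ a ∧ r ≤ b) → A.Countable

/-- Every decreasing sequence of `C` has a lower bound. -/
def CtblyClosed (C : Type u) [Preorder C] : Prop :=
  ∀ f : ℕ → C, (∀ n, f (n + 1) ≤ f n) → ∃ c, ∀ n, c ≤ f n

end Pool.Agent.Helper46.SP
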