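import Pool.Agent.Helper46.SP.Base

/-!
# The forcing notion: parameters, Cohen conditions, real names, codes, conditions
-/

open Cardinal Set
open scoped Pointwise

namespace Pool.Agent.Helper46.SP

/-! ## Parameters -/

/-- The parameters of the construction: levels (order type `ω₁` will do), the cardinals `κ ξ`,
the bound `K` for the size of conditions, and the index set `Ω`. -/
structure Par where
  Lev : Type
  [linLev : LinearOrder Lev]
  [wfLev : WellFoundedLT Lev]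
  Ω : Type
  κ : Lev → Cardinal.{0}
  K : Cardinal.{0}
  /-- countable sets of levels are bounded -/
  lev_bdd : ∀ s : Set Lev, s.Countable → ∃ ν, ∀ ξ ∈ s, ξ < ν
  card_lev : ∀ ξ, #Lev ≤ κ ξ
  cont_le : ∀ ξ, (2 : Cardinal.{0}) ^ ℵ₀ ≤ κ ξ
  κ_omega : ∀ ξ, κ ξ ^ (ℵ₀ : Cardinal.{0}) = κ ξ
  κ_beth : ∀ η ξ, η < ξ → (2 : Cardinal.{0}) ^ ((2 : Cardinal.{0}) ^ κ η) ≤ κ ξ
  κ_pow : ∀ η ξ, η < ξ → κ ξ ^ κ η = κ ξ
  κ_reg : ∀ ξ, ∃ θ : Cardinal.{0}, θ.IsRegular ∧ (∀ η < ξ, κ η < θ) ∧ θ ≤ κ ξ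
  κ_le_K : ∀ ξ, κ ξ ≤ K
  K_pow : ∀ ξ, K ^ κ ξ = K
  K_reg : ∃ θ : Cardinal.{0}, θ.IsRegular ∧ (∀ η, κ η < θ) ∧ θ ≤ K
  K_lt : K < #Ω

attribute [instance] Par.linLev Par.wfLev

variable (Q : Par)

/-- Indices: `(none, i)` are the Cohen indices, `(some ξ, i)` the labels of level `ξ`. -/
abbrev Idx : Type := Option Q.Lev × Q.Ω

/-- Labels. -/
abbrev Lab : Type := Q.Lev × Q.Ω

/-- Stages: levels and the top stage. -/
abbrev Stg : Type := WithTop Q.Lev

/-- The group of level preserving permutations of the indices. -/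
abbrev Grp : Type := Option Q.Lev → Equiv.Perm Q.Ω

variable {Q}

/-- a label as an index -/
def lab (l : Lab Q) : Idx Q := (some l.1, l.2)

instance : MulAction (Grp Q) (Idx Q) where
  smul g i := (i.1, g i.1 i.2)
  one_smul _ := rfl
  mul_smul _ _ _ := rfl

instance : MulAction (Grp Q) (Lab Q) where
  smul g l := (l.1, g (some l.1) l.2)
  one_smul _ := rfl
  mul_smul _ _ _ := rfl

theorem smul_idx (g : Grp Q) (i : Idx Q) : g • i = (i.1, g i.1 i.2) := rfl
theorem smul_lab (g : Grp Q) (l : Lab Q) : g • l = (l.1, g (some l.1) l.2) := rfl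

/-- `g` fixes every index in `Z`. -/
def Fixes (g : Grp Q) (Z : Set (Idx Q)) : Prop := ∀ i ∈ Z, g • i = i

/-- The Cohen indices and the labels of level below `ζ`. -/
def below (ζ : Stg Q) : Set (Idx Q) := {i | ∀ ξ, i.1 = some ξ → (ξ : Stg Q) < ζ}

/-! ## Cohen conditions -/

variable (Q)

/-- Finite partial functions from `Ω × ℕ` to `Bool`. -/
@[ext] structure P0 where
  val : Q.Ω × ℕ → Option Bool
  fin : {x | val x ≠ none}.Finite

variable {Q}

namespace P0

instance : PartialOrder (P0 Q) where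
  le p q := ∀ x b, q.val x = some b → p.val x = some b
  le_refl _ _ _ h := h
  le_trans _ _ _ h h' x b hb := h x b (h' x b hb)
  le_antisymm p q h h' := by
    ext x b
    exact ⟨fun hb => h' x b hb, fun hb => h x b hb⟩

theorem le_def (p q : P0 Q) : p ≤ q ↔ ∀ x b, q.val x = some b → p.val x = some b := Iff.rfl

instance : OrderTop (P0 Q) where
  top := ⟨fun _ => none, by simp⟩
  le_top _ _ _ h := by cases h

theorem top_val (x : Q.Ω × ℕ) : (⊤ : P0 Q).val x = none := rfl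

/-- The restriction of `p` to the Cohen indices in `Z`. -/
noncomputable def res (p : P0 Q) (Z : Set (Idx Q)) : P0 Q where
  val x := by classical exact if ((none, x.1) : Idx Q) ∈ Z then p.val x else none
  fin := p.fin.subset (fun x hx => by
    intro h
    apply hx
    rw [h, ite_self])

/-- The union of two compatible conditions (`p` has priority). -/
def merge (p q : P0 Q) : P0 Q where
  val x := (p.val x).orElse (fun _ => q.val x)
  fin := (p.fin.union q.fin).subset (fun x hx => by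
    by_cases h : p.val x = none
    · right
      intro h'
      apply hx
      simp [h, h']
    · exact Or.inl h)

instance : SMul (Grp Q) (P0 Q) where
  smul g p := ⟨fun x => p.val ((g none)⁻¹ x.1, x.2), by
    have : {x : Q.Ω × ℕ | p.val ((g none)⁻¹ x.1, x.2) ≠ none} =
        (fun x : Q.Ω × ℕ => ((g none)⁻¹ x.1, x.2)) ⁻¹' {x | p.val x ≠ none} := rfl
    rw [this]
    apply p.fin.preimage
    intro x _ y _ h
    simp only [Prod.mk.injEq, EmbeddingLike.apply_eq_iff_eq] at h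
    exact Prod.ext h.1 h.2⟩

theorem smul_val (g : Grp Q) (p : P0 Q) (x : Q.Ω × ℕ) :
    (g • p).val x = p.val ((g none)⁻¹ x.1, x.2) := rfl

instance : MulAction (Grp Q) (P0 Q) where
  one_smul p := by
    apply P0.ext
    funext x
    rw [smul_val]
    simp
  mul_smul g h p := by
    apply P0.ext
    funext x
    simp only [smul_val, Pi.mul_apply, mul_inv_rev, Equiv.Perm.coe_mul, Function.comp_apply]

theorem smul_le (g : Grp Q) (p q : P0 Q) (h : p ≤ q) : g • p ≤ g • q :=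
  fun x b hb => h _ b hb

theorem smul_top (g : Grp Q) : g • (⊤ : P0 Q) = ⊤ := rfl

end P0

/-- `S` is a regular (downward closed, and dense below a condition implies membership) set of conditions. -/
def IsReg {P : Type*} [Preorder P] (S : Set P) : Prop :=
  ∀ p, p ∈ S ↔ ∀ q ≤ p, ∃ r ≤ q, r ∈ S

/-! ## Names of reals -/

variable (Q)

/-- Names of sets of natural numbers over the Cohen poset, with countable support. -/
@[ext] structure RN where
  val : ℕ → Set (P0 Q)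
  reg : ∀ n, IsReg (val n)
  supp : ∃ z : Set (Idx Q), z.Countable ∧ ∀ n p, p ∈ val n ↔ p.res z ∈ val n

variable {Q}

namespace RN

/-- `p` forces `x = y`. -/
def Feq (x y : RN Q) (p : P0 Q) : Prop := ∀ q ≤ p, ∀ n, q ∈ x.val n ↔ q ∈ y.val n

/-- The name `x` depends only on the Cohen indices in `Z`. -/
def Over (x : RN Q) (Z : Set (Idx Q)) : Prop := ∀ n p, p ∈ x.val n ↔ p.res Z ∈ x.val n

theorem res_smul (g : Grp Q) (p : P0 Q) (Z : Set (Idx Q)) :
    (g • p).res (g • Z) = g • p.res Z := by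
  apply P0.ext
  funext x
  have h1 : ((none, x.1) : Idx Q) ∈ g • Z ↔ ((none, (g none)⁻¹ x.1) : Idx Q) ∈ Z := by
    rw [Set.mem_smul_set_iff_inv_smul_mem]
    rfl
  simp only [P0.res, P0.smul_val]
  by_cases h : ((none, x.1) : Idx Q) ∈ g • Z
  · rw [if_pos h, if_pos (h1.1 h)]
  · rw [if_neg h, if_neg (fun h'' => h (h1.2 h''))]

instance : SMul (Grp Q) (RN Q) where
  smul g x :=
    { val := fun n => g • x.val n
      reg := by
        intro n p
        have h := x.reg n (g⁻¹ • p)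
        rw [Set.mem_smul_set_iff_inv_smul_mem, h]
        constructor
        · intro H q hq
          obtain ⟨r, hr, hr'⟩ := H (g⁻¹ • q) (P0.smul_le _ _ _ hq)
          refine ⟨g • r, ?_, ?_⟩
          · have := P0.smul_le g _ _ hr
            rwa [smul_inv_smul] at this
          · exact Set.smul_mem_smul_set hr'
        · intro H q hq
          obtain ⟨r, hr, hr'⟩ := H (g • q) (by
            have := P0.smul_le g _ _ hq
            rwa [smul_inv_smul] at this)
          refine ⟨g⁻¹ • r, ?_, ?_⟩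
          · have := P0.smul_le g⁻¹ _ _ hr
            rwa [inv_smul_smul] at this
          · rwa [Set.mem_smul_set_iff_inv_smul_mem] at hr'
      supp := by
        obtain ⟨z, hz, h⟩ := x.supp
        refine ⟨g • z, hz.image _, fun n p => ?_⟩
        rw [Set.mem_smul_set_iff_inv_smul_mem, Set.mem_smul_set_iff_inv_smul_mem, h]
        have : (g⁻¹ • p).res z = g⁻¹ • p.res (g • z) := by
          have := res_smul g⁻¹ p (g • z)
          rwa [inv_smul_smul] at this
        rw [this] }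

theorem smul_val (g : Grp Q) (x : RN Q) (n : ℕ) : (g • x).val n = g • x.val n := rfl

instance : MulAction (Grp Q) (RN Q) where
  one_smul x := by
    apply RN.ext
    funext n
    rw [smul_val, one_smul]
  mul_smul g h x := by
    apply RN.ext
    funext n
    rw [smul_val, smul_val, smul_val, mul_smul]

/-- The name of the empty set. -/
def zero : RN Q where
  val _ := ∅
  reg _ p := by
    constructor
    · intro h
      exact h.elim
    · intro h
      obtain ⟨r, _, hr⟩ := h p le_rfl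
      exact hr.elim
  supp := ⟨∅, Set.countable_empty, fun _ _ => by simp⟩

end RN

/-! ## Codes of names of sets of reals -/

/-- A system of codes: the code `A` of level `lev A` stands for the set `G A` of triples
`(x, q, f)` where `x` is a name of a real, `q` a Cohen condition and `f` a set of triples
`(B, l, v)` with `B` a code and `l` a label of the same level below `lev A`. -/
structure CodeSys (Q : Par) where
  U : Type
  [act : MulAction (Grp Q) U]
  lev : U → Q.Lev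
  G : U → Set (RN Q × P0 Q × Set (U × Lab Q × RN Q))
  lev_mem : ∀ A, ∀ t ∈ G A, ∀ s ∈ t.2.2, lev s.1 = s.2.1.1 ∧ lev s.1 < lev A
  ext : ∀ A B, lev A = lev B → G A = G B → A = B
  make : ∀ (ξ : Q.Lev) (T : Set (RN Q × P0 Q × Set (U × Lab Q × RN Q))),
    (∀ t ∈ T, ∀ s ∈ t.2.2, lev s.1 = s.2.1.1 ∧ lev s.1 < ξ) → ∃ A, lev A = ξ ∧ G A = T
  lev_smul : ∀ (g : Grp Q) (A : U), lev (g • A) = lev A
  G_smul : ∀ (g : Grp Q) (A : U), G (g • A) = g • G A

attribute [instance] CodeSys.act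

variable (S : CodeSys Q)

/-- Triples `(A, l, v)`: the value of the choice function with label `l` at `A` is `v`. -/
abbrev Trip : Type := S.U × Lab Q × RN Q

/-- Raw conditions. -/
abbrev RC : Type := Set (Trip S)

variable {S}

/-- The level of a triple. -/
def tlev (t : Trip S) : Q.Lev := t.2.1.1

/-- The part of `c` of level below `ζ`. -/
def cut (c : RC S) (ζ : Stg Q) : RC S := {t | t ∈ c ∧ (tlev t : Stg Q) < ζ}

/-- `(p, c) ⊩ x ∈ T` with respect to the set `𝒞` of conditions. -/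
def FM (𝒞 : Set (RC S)) (x : RN Q) (T : Set (RN Q × P0 Q × RC S)) (p : P0 Q) (c : RC S) : Prop :=
  ∀ p' ≤ p, ∀ c' ∈ 𝒞, c ⊆ c' → ∃ p'' ≤ p', ∃ c'' ∈ 𝒞, c' ⊆ c'' ∧
    ∃ t ∈ T, p'' ≤ t.2.1 ∧ t.2.2 ⊆ c'' ∧ x.Feq t.1 p''

/-- `(p, c) ⊩ T = T'` with respect to the set `𝒞` of conditions. -/
def FE (𝒞 : Set (RC S)) (T T' : Set (RN Q × P0 Q × RC S)) (p : P0 Q) (c : RC S) : Prop :=
  ∀ p' ≤ p, ∀ c' ∈ 𝒞, c ⊆ c' → ∀ x : RN Q, FM 𝒞 x T p' c' ↔ FM 𝒞 x T' p' c'

/-- `A` is a canonical small invariant name of a set of reals of level `ξ`, with respect to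
the set `𝒞` of conditions. -/
structure IsSN (𝒞 : Set (RC S)) (ξ : Q.Lev) (A : S.U) : Prop where
  lev : S.lev A = ξ
  small : ∀ t ∈ S.G A, t.2.2 ∈ 𝒞 ∧ #t.2.2 ≤ Q.κ ξ
  canon : ∀ (x : RN Q) (q : P0 Q), ∀ f ∈ 𝒞, #f ≤ Q.κ ξ → FM 𝒞 x (S.G A) q f → (x, q, f) ∈ S.G A
  inv : ∃ z : Set (Idx Q), #z ≤ Q.κ ξ ∧ ∀ g : Grp Q, Fixes g z → g • A = A

/-- The requirements on the triples of level `η` of a condition `c`. -/
structure OK (𝒞 : Set (RC S)) (η : Q.Lev) (c : RC S) : Prop where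
  name : ∀ t ∈ c, tlev t = η → IsSN 𝒞 η t.1
  mem : ∀ t ∈ c, tlev t = η → ∀ p : P0 Q, ∀ d ∈ 𝒞, cut c η ⊆ d → ∀ x : RN Q,
    FM 𝒞 x (S.G t.1) p d → FM 𝒞 t.2.2 (S.G t.1) p d
  fn : ∀ t ∈ c, ∀ t' ∈ c, tlev t = η → t.2.1 = t'.2.1 → ∀ p : P0 Q, ∀ d ∈ 𝒞, cut c η ⊆ d →
    FE 𝒞 (S.G t.1) (S.G t'.1) p d → t.2.2.Feq t'.2.2 p

/-- The set of conditions of stage `ζ`. -/
def CC : Stg Q → Set (RC S) :=
  (wellFounded_lt (α := Stg Q)).fix (fun ζ ih =>
    {c | #c ≤ Q.K ∧ (∀ t ∈ c, (tlev t : Stg Q) < ζ) ∧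
      ∀ (η : Q.Lev) (h : (η : Stg Q) < ζ), OK (ih (η : Stg Q) h) η c})

theorem mem_CC {ζ : Stg Q} {c : RC S} : c ∈ CC ζ ↔
    #c ≤ Q.K ∧ (∀ t ∈ c, (tlev t : Stg Q) < ζ) ∧
      ∀ (η : Q.Lev), (η : Stg Q) < ζ → OK (CC (η : Stg Q)) η c := by
  unfold CC
  rw [WellFounded.fix_eq]
  rfl

/-- `A` is a set name of level `ξ`. -/
def SN (ξ : Q.Lev) (A : S.U) : Prop := IsSN (CC (ξ : Stg Q)) ξ A

/-- The set name `A` is over `Z`: it has a small support contained in `Z`. -/
def UOver (A : S.U) (Z : Set (Idx Q)) : Prop :=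
  ∃ z ⊆ Z, #z ≤ Q.κ (S.lev A) ∧ ∀ g : Grp Q, Fixes g z → g • A = A

/-- The condition `c` is over `Z`. -/
def COver (c : RC S) (Z : Set (Idx Q)) : Prop :=
  ∀ t ∈ c, UOver t.1 Z ∧ lab t.2.1 ∈ Z ∧ t.2.2.Over Z

/-- `(c, Z)` is closed. -/
structure Closed (c : RC S) (Z : Set (Idx Q)) : Prop where
  cond : c ∈ CC (⊤ : Stg Q)
  card : #Z ≤ Q.K
  ovr : COver c Z
  closed : ∀ (A : S.U) (l : Lab Q), SN (S.lev A) A → UOver A Z → l.1 = S.lev A → lab l ∈ Z →
    ∃ v : RN Q, v.Over Z ∧ (A, l, v) ∈ c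

/-- `Z` is closed with respect to the (closed) condition `d`. -/
def DClosed (d : RC S) (Z : Set (Idx Q)) : Prop :=
  ∀ t ∈ d, UOver t.1 Z → lab t.2.1 ∈ Z → t.2.2.Over Z

/-- The part of `d` over `Z`. -/
def rst (d : RC S) (Z : Set (Idx Q)) : RC S := {t | t ∈ d ∧ UOver t.1 Z ∧ lab t.2.1 ∈ Z}

/-- `b` is a regular subset of the poset of stage `ζ`. -/
structure RegB (ζ : Stg Q) (b : Set (P0 Q × RC S)) : Prop where
  sub : ∀ x ∈ b, x.2 ∈ CC ζ
  down : ∀ x ∈ b, ∀ p ≤ x.1, ∀ c ∈ CC ζ, x.2 ⊆ c → (p, c) ∈ b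
  dense : ∀ (p : P0 Q) (c : RC S), c ∈ CC ζ →
    (∀ p' ≤ p, ∀ c' ∈ CC ζ, c ⊆ c' → ∃ p'' ≤ p', ∃ c'' ∈ CC ζ, c' ⊆ c'' ∧ (p'', c'') ∈ b) →
    (p, c) ∈ b

/-- `b` is invariant under the permutations fixing `Z`. -/
def InvB (Z : Set (Idx Q)) (b : Set (P0 Q × RC S)) : Prop :=
  ∀ g : Grp Q, Fixes g Z → ∀ x ∈ b, g • x ∈ b

end Pool.Agent.Helper46.SP
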