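import Pool.Agent.Helper46.SP.Sys

namespace Pool.Agent.Helper46.SP

/-- (F4) -/
theorem goal_of (hpar : ST_par) (hcodes : ST_codes) (hmac : ST_macros.{0}) (hmodel : ST_model.{0})
    (hdc : ST_dc.{0}) (hgood : ST_good) (hspr : ST_spr) (hnwor : ST_nwor) : Goal := by
  obtain ⟨Q⟩ := hpar
  obtain ⟨S⟩ := hcodes Q
  obtain ⟨M, E, hZF, h⟩ := hmodel _ _ (sys S) ⊤
  obtain ⟨h1, h2, h3⟩ := hmac M E
  refine ⟨M, E, hZF, h3.1 (h _ (hdc _ _ _ (sys S) (hgood Q S) ⊤)), h1.1 (h _ (hspr Q S ⊤)),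
    fun hw => ?_⟩
  have h4 := h _ (hnwor Q S ⊤)
  exact h4 (h2.2 hw)

end Pool.Agent.Helper46.SP
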