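import Mathlib

/-!
# Models of ZF, dependent choices, the continuum splitting property, well-orderings of the reals

First-order formulas of set theory, their satisfaction in a structure `(M, E)`, and the axioms
used in the statement of the theorem on MP_913f70_lc.
-/

universe u

namespace Pool.Agent.Helper46.SP

/-! ## First-order set theory -/

/-- First-order formulas of the language of set theory with free variables indexed by `Fin k`
(de Bruijn style: the variable bound by `all` is the variable `0`). -/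
inductive Fml : ℕ → Type
  | mem {k : ℕ} (i j : Fin k) : Fml k
  | eq {k : ℕ} (i j : Fin k) : Fml k
  | neg {k : ℕ} (φ : Fml k) : Fml k
  | and {k : ℕ} (φ ψ : Fml k) : Fml k
  | all {k : ℕ} (φ : Fml (k + 1)) : Fml k

/-- Satisfaction of formulas in the structure `(M, E)`. -/
def Sat (M : Type*) (E : M → M → Prop) : {k : ℕ} → Fml k → (Fin k → M) → Prop
  | _, .mem i j, v => E (v i) (v j)
  | _, .eq i j, v => v i = v j
  | _, .neg φ, v => ¬ Sat M E φ v
  | _, .and φ ψ, v => Sat M E φ v ∧ Sat M E ψ v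
  | _, .all φ, v => ∀ x, Sat M E φ (Fin.cons x v)

section Models

variable {M : Type*} (E : M → M → Prop)

/-- `z = {x, y}` in `(M, E)`. -/
def IsPair (x y z : M) : Prop := ∀ w, E w z ↔ w = x ∨ w = y

/-- `z` is the Kuratowski ordered pair `(x, y) = {{x}, {x, y}}` in `(M, E)`. -/
def IsOPair (x y z : M) : Prop := ∃ s t, IsPair E x x s ∧ IsPair E x y t ∧ IsPair E s t z

/-- `(x, y) ∈ r` in `(M, E)`. -/
def RelMem (r x y : M) : Prop := ∃ z, IsOPair E x y z ∧ E z r

/-- `s = x ∪ {x}` in `(M, E)`. -/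
def IsSucc (x s : M) : Prop := ∀ z, E z s ↔ E z x ∨ z = x

/-- `w` contains the empty set and is closed under `x ↦ x ∪ {x}`. -/
def IsInductive (w : M) : Prop :=
  (∃ e, (∀ y, ¬ E y e) ∧ E e w) ∧ ∀ x, E x w → ∃ s, IsSucc E x s ∧ E s w

/-- `w = ω` in `(M, E)`: the least inductive set. -/
def IsOmega (w : M) : Prop :=
  IsInductive E w ∧ ∀ w', IsInductive E w' → ∀ x, E x w → E x w'

/-- `r` is the set of all reals, i.e. the power set of `ω`, in `(M, E)`. -/
def IsReals (r : M) : Prop := ∃ w, IsOmega E w ∧ ∀ x, E x r ↔ ∀ y, E y x → E y w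

/-- `(M, E)` is a model of ZF (with the separation and replacement schemas for all first-order
formulas with parameters). -/
structure IsZF : Prop where
  ext : ∀ x y : M, (∀ z, E z x ↔ E z y) → x = y
  pair : ∀ x y : M, ∃ z, IsPair E x y z
  union : ∀ x : M, ∃ y, ∀ z, E z y ↔ ∃ w, E w x ∧ E z w
  power : ∀ x : M, ∃ y, ∀ z, E z y ↔ ∀ w, E w z → E w x
  infinity : ∃ w, IsInductive E w
  foundation : ∀ x : M, (∃ y, E y x) → ∃ y, E y x ∧ ∀ z, E z x → ¬ E z y
  separation : ∀ (k : ℕ) (φ : Fml (k + 1)) (v : Fin k → M) (a : M),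
    ∃ b, ∀ x, E x b ↔ E x a ∧ Sat M E φ (Fin.cons x v)
  replacement : ∀ (k : ℕ) (φ : Fml (k + 2)) (v : Fin k → M) (a : M),
    (∀ x, E x a → ∃! y, Sat M E φ (Fin.cons x (Fin.cons y v))) →
    ∃ b, ∀ y, E y b ↔ ∃ x, E x a ∧ Sat M E φ (Fin.cons x (Fin.cons y v))

/-- `r` (restricted to `a`) is an equivalence relation on `a` in `(M, E)`. -/
def IsEquivOn (a r : M) : Prop :=
  (∀ x, E x a → RelMem E r x x) ∧
  (∀ x y, E x a → E y a → RelMem E r x y → RelMem E r y x) ∧
  (∀ x y z, E x a → E y a → E z a → RelMem E r x y → RelMem E r y z → RelMem E r x z)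

/-- `t` is a transversal of the equivalence relation `r` on `a`: a subset of `a` meeting every
class in exactly one point. -/
def IsTransversal (a r t : M) : Prop :=
  (∀ x, E x t → E x a) ∧ ∀ x, E x a → ∃! y, E y t ∧ RelMem E r x y

/-- The continuum splitting property: every equivalence relation on the reals has a
transversal. -/
def SPR : Prop := ∀ r, IsReals E r → ∀ e, IsEquivOn E r e → ∃ t, IsTransversal E r e t

/-- `w` (restricted to `a`) is a strict linear order on `a` in which every nonempty subset of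
`a` has a least element. -/
def IsWellOrderOf (a w : M) : Prop :=
  (∀ x, E x a → ¬ RelMem E w x x) ∧
  (∀ x y z, E x a → E y a → E z a → RelMem E w x y → RelMem E w y z → RelMem E w x z) ∧
  (∀ x y, E x a → E y a → RelMem E w x y ∨ x = y ∨ RelMem E w y x) ∧
  (∀ s, (∀ x, E x s → E x a) → (∃ x, E x s) → ∃ x, E x s ∧ ∀ y, E y s → y = x ∨ RelMem E w x y)

/-- The reals can be well-ordered. -/
def WOR : Prop := ∃ r, IsReals E r ∧ ∃ w, IsWellOrderOf E r w

/-- The principle of dependent choices: if `a` is nonempty and every `x ∈ a` has some `y ∈ a`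
with `(x, y) ∈ r`, then there is a function `f` with domain `ω` and values in `a` such that
`(f(n), f(n+1)) ∈ r` for all `n`. -/
def DC : Prop :=
  ∀ a r : M, (∃ x, E x a) → (∀ x, E x a → ∃ y, E y a ∧ RelMem E r x y) →
    ∃ w f, IsOmega E w ∧ (∀ n, E n w → ∃! x, RelMem E f n x) ∧
      (∀ n x, E n w → RelMem E f n x → E x a) ∧
      ∀ n s x y, E n w → IsSucc E n s → RelMem E f n x → RelMem E f s y → RelMem E r x y

end Models

/-- The final statement: ZF + DC + SP(ℝ) + ¬ WO(ℝ) has a model. -/
def Goal : Prop :=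
  ∃ (M : Type) (E : M → M → Prop), IsZF E ∧ DC E ∧ SPR E ∧ ¬ WOR E

end Pool.Agent.Helper46.SP
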