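import Pool.Agent.Helper46.SP.Base

/-!
# Exact statements of the general modules (B), (C), (D)
-/

universe u

namespace Pool.Agent.Helper46.SP

open Name

/-! ## Formula macros -/

namespace Fml

variable {k : ℕ}

def imp (φ ψ : Fml k) : Fml k := neg (and φ (neg ψ))
def or (φ ψ : Fml k) : Fml k := neg (and (neg φ) (neg ψ))
def iff (φ ψ : Fml k) : Fml k := and (imp φ ψ) (imp ψ φ)
def ex (φ : Fml (k + 1)) : Fml k := neg (all (neg φ))

/-- `z = {x, y}` -/
def isPair (x y z : Fin k) : Fml k :=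
  all (iff (mem 0 z.succ) (or (eq 0 x.succ) (eq 0 y.succ)))

/-- `z = (x, y)`; the bound variables are `t` (index 0) and `s` (index 1). -/
def isOPair (x y z : Fin k) : Fml k :=
  ex (ex (and (isPair x.succ.succ x.succ.succ 1)
    (and (isPair x.succ.succ y.succ.succ 0) (isPair 1 0 z.succ.succ))))

/-- `(x, y) ∈ r` -/
def relMem (r x y : Fin k) : Fml k :=
  ex (and (isOPair x.succ y.succ 0) (mem 0 r.succ))

/-- `s = x ∪ {x}` -/
def isSucc (x s : Fin k) : Fml k :=
  all (iff (mem 0 s.succ) (or (mem 0 x.succ) (eq 0 x.succ)))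

def isInductive (w : Fin k) : Fml k :=
  and (ex (and (all (neg (mem 0 1))) (mem 0 w.succ)))
    (all (imp (mem 0 w.succ) (ex (and (isSucc 1 0) (mem 0 w.succ.succ)))))

def isOmega (w : Fin k) : Fml k :=
  and (isInductive w)
    (all (imp (isInductive 0) (all (imp (mem 0 w.succ.succ) (mem 0 1)))))

def isReals (r : Fin k) : Fml k :=
  ex (and (isOmega 0) (all (iff (mem 0 r.succ.succ) (all (imp (mem 0 1) (mem 0 2))))))

/-- `e` is an equivalence relation on `a`. -/
def isEquivOn (a e : Fin k) : Fml k :=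
  and (all (imp (mem 0 a.succ) (relMem e.succ 0 0)))
    (and
      (all (all (imp (mem 1 a.succ.succ) (imp (mem 0 a.succ.succ)
        (imp (relMem e.succ.succ 1 0) (relMem e.succ.succ 0 1))))))
      (all (all (all (imp (mem 2 a.succ.succ.succ) (imp (mem 1 a.succ.succ.succ)
        (imp (mem 0 a.succ.succ.succ) (imp (relMem e.succ.succ.succ 2 1)
          (imp (relMem e.succ.succ.succ 1 0) (relMem e.succ.succ.succ 2 0))))))))))

/-- `t` is a transversal of `e` on `a`. -/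
def isTransversal (a e t : Fin k) : Fml k :=
  and (all (imp (mem 0 t.succ) (mem 0 a.succ)))
    (all (imp (mem 0 a.succ)
      (ex (and (and (mem 0 t.succ.succ) (relMem e.succ.succ 1 0))
        (all (imp (and (mem 0 t.succ.succ.succ) (relMem e.succ.succ.succ 2 0)) (eq 0 1)))))))

/-- the continuum splitting property -/
def spr : Fml 0 :=
  all (imp (isReals 0) (all (imp (isEquivOn 1 0) (ex (isTransversal 2 1 0)))))

/-- `w` well-orders `a`. -/
def isWellOrderOf (a w : Fin k) : Fml k :=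
  and (all (imp (mem 0 a.succ) (neg (relMem w.succ 0 0))))
  (and
    (all (all (all (imp (mem 2 a.succ.succ.succ) (imp (mem 1 a.succ.succ.succ)
      (imp (mem 0 a.succ.succ.succ) (imp (relMem w.succ.succ.succ 2 1)
        (imp (relMem w.succ.succ.succ 1 0) (relMem w.succ.succ.succ 2 0)))))))))
  (and
    (all (all (imp (mem 1 a.succ.succ) (imp (mem 0 a.succ.succ)
      (or (relMem w.succ.succ 1 0) (or (eq 1 0) (relMem w.succ.succ 0 1)))))))
    (all (imp (all (imp (mem 0 1) (mem 0 a.succ.succ))) (imp (ex (mem 0 1))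
      (ex (and (mem 0 1)
        (all (imp (mem 0 2) (or (eq 0 1) (relMem w.succ.succ.succ 1 0)))))))))))

/-- the reals can be well-ordered -/
def wor : Fml 0 := ex (and (isReals 0) (ex (isWellOrderOf 1 0)))

/-- `f` is a function on `w` with values in `a` and `(f(n), f(n+1)) ∈ r` -/
def isDCSeq (a r w f : Fin k) : Fml k :=
  and (isOmega w) (and
    (all (imp (mem 0 w.succ)
      (ex (and (relMem f.succ.succ 1 0) (all (imp (relMem f.succ.succ.succ 2 0) (eq 0 1)))))))
    (and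
      (all (all (imp (mem 1 w.succ.succ) (imp (relMem f.succ.succ 1 0) (mem 0 a.succ.succ)))))
      (all (all (all (all (imp (mem 3 w.succ.succ.succ.succ) (imp (isSucc 3 2)
        (imp (relMem f.succ.succ.succ.succ 3 1) (imp (relMem f.succ.succ.succ.succ 2 0)
          (relMem r.succ.succ.succ.succ 1 0)))))))))))

/-- dependent choices -/
def dc : Fml 0 :=
  all (all (imp (ex (mem 0 2)) (imp
    (all (imp (mem 0 2) (ex (and (mem 0 3) (relMem 2 1 0)))))
    (ex (ex (isDCSeq 3 2 1 0))))))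

/-! ### Renaming, and the axioms of ZF as formulas -/

/-- lifting of a renaming under a quantifier -/
def liftR {k m : ℕ} (f : Fin k → Fin m) : Fin (k + 1) → Fin (m + 1) :=
  Fin.cons 0 (fun i => (f i).succ)

/-- renaming of the free variables -/
def ren : {k m : ℕ} → Fml k → (Fin k → Fin m) → Fml m
  | _, _, mem i j, f => mem (f i) (f j)
  | _, _, eq i j, f => eq (f i) (f j)
  | _, _, neg φ, f => neg (ren φ f)
  | _, _, and φ ψ, f => and (ren φ f) (ren ψ f)
  | _, _, all φ, f => all (ren φ (liftR f))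

def axExt : Fml 0 := all (all (imp (all (iff (mem 0 2) (mem 0 1))) (eq 1 0)))
def axPair : Fml 0 := all (all (ex (isPair 2 1 0)))
def axUnion : Fml 0 := all (ex (all (iff (mem 0 1) (ex (and (mem 0 3) (mem 1 0))))))
def axPower : Fml 0 := all (ex (all (iff (mem 0 1) (all (imp (mem 0 1) (mem 0 3))))))
def axInf : Fml 0 := ex (isInductive 0)
def axFound : Fml 0 :=
  all (imp (ex (mem 0 1)) (ex (and (mem 0 1) (all (imp (mem 0 2) (neg (mem 0 1)))))))

/-- separation for `φ(x, v)`; the free variables are `a` (index 0) and `v`. -/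
def axSep (φ : Fml (k + 1)) : Fml (k + 1) :=
  ex (all (iff (mem 0 1) (and (mem 0 2) (ren φ (Fin.cons 0 (fun i => i.succ.succ.succ))))))

/-- replacement for `φ(x, y, v)`; the free variables are `a` (index 0) and `v`. -/
def axRepl (φ : Fml (k + 2)) : Fml (k + 1) :=
  imp
    (all (imp (mem 0 1) (ex (and (ren φ (Fin.cons 1 (Fin.cons 0 (fun i => i.succ.succ.succ))))
      (all (imp (ren φ (Fin.cons 2 (Fin.cons 0 (fun i => i.succ.succ.succ.succ)))) (eq 0 1)))))))
    (ex (all (iff (mem 0 1) (ex (and (mem 0 3)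
      (ren φ (Fin.cons 0 (Fin.cons 1 (fun i => i.succ.succ.succ.succ)))))))))

end Fml

/-- (C0) the macros mean what they should. -/
def ST_macros : Prop :=
  ∀ (M : Type u) (E : M → M → Prop),
    (Sat M E Fml.spr Fin.elim0 ↔ SPR E) ∧ (Sat M E Fml.wor Fin.elim0 ↔ WOR E) ∧
    (Sat M E Fml.dc Fin.elim0 ↔ DC E)

/-- (C0') a structure satisfying the axiom formulas is a model of ZF. -/
def ST_satZF : Prop :=
  ∀ (M : Type u) (E : M → M → Prop),
    Sat M E Fml.axExt Fin.elim0 → Sat M E Fml.axPair Fin.elim0 →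
    Sat M E Fml.axUnion Fin.elim0 → Sat M E Fml.axPower Fin.elim0 →
    Sat M E Fml.axInf Fin.elim0 → Sat M E Fml.axFound Fin.elim0 →
    (∀ (k : ℕ) (φ : Fml (k + 1)) (v : Fin (k + 1) → M), Sat M E (Fml.axSep φ) v) →
    (∀ (k : ℕ) (φ : Fml (k + 2)) (v : Fin (k + 1) → M), Sat M E (Fml.axRepl φ) v) →
    IsZF E

/-! ## (B): the forcing relation -/

section B

variable {P G : Type u} [Preorder P] [OrderTop P] [Group G] [MulAction G P]

/-- Basic facts on forced equality and membership. -/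
structure BasicEq (P : Type u) [Preorder P] : Prop where
  refl : ∀ (a : Name P) (p : P), FEq a a p
  symm : ∀ (a b : Name P) (p : P), FEq a b p → FEq b a p
  trans : ∀ (a b c : Name P) (p : P), FEq a b p → FEq b c p → FEq a c p
  mono : ∀ (a b : Name P) (p q : P), FEq a b p → q ≤ p → FEq a b q
  dense : ∀ (a b : Name P) (p : P), (∀ q ≤ p, ∃ r ≤ q, FEq a b r) → FEq a b p
  memMono : ∀ (a b : Name P) (p q : P), FMem a b p → q ≤ p → FMem a b q
  memDense : ∀ (a b : Name P) (p : P), (∀ q ≤ p, ∃ r ≤ q, FMem a b r) → FMem a b p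
  memCongr : ∀ (a a' b b' : Name P) (p : P), FEq a a' p → FEq b b' p → FMem a b p → FMem a' b' p
  elem : ∀ (ι : Type u) (A : ι → Name P) (B : ι → P) (i : ι) (p : P), p ≤ B i →
    FMem (A i) (Name.mk ι A B) p
  ext : ∀ (a b : Name P) (p : P),
    (∀ x : Name P, ∀ q ≤ p, FMem x a q ↔ FMem x b q) → FEq a b p

def ST_basicEq : Prop := ∀ (P : Type u) [Preorder P], BasicEq P

/-- The facts on the forcing relation used elsewhere. -/
structure ForcesFacts (S : SymSys P G) : Prop where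
  mono : ∀ {k : ℕ} (φ : Fml k) (v : Fin k → Name P) (p q : P),
    S.Forces φ v p → q ≤ p → S.Forces φ v q
  dense : ∀ {k : ℕ} (φ : Fml k) (v : Fin k → Name P) (p : P),
    (∀ q ≤ p, ∃ r ≤ q, S.Forces φ v r) → S.Forces φ v p
  congr : ∀ {k : ℕ} (φ : Fml k) (v w : Fin k → Name P) (p : P),
    (∀ i, FEq (v i) (w i) p) → S.Forces φ v p → S.Forces φ w p
  act : ∀ {k : ℕ} (φ : Fml k) (v : Fin k → Name P) (p : P) (g : G),
    S.Forces φ v p → S.Forces φ (fun i => Name.act g (v i)) (g • p)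
  hsAct : ∀ (a : Name P) (g : G), S.IsHS a → S.IsHS (Name.act g a)
  ext : ∀ (a b : Name P) (p : P), S.IsHS a → S.IsHS b →
    (∀ x : Name P, S.IsHS x → ∀ q ≤ p, FMem x a q ↔ FMem x b q) → FEq a b p
  imp : ∀ {k : ℕ} (φ ψ : Fml k) (v : Fin k → Name P) (p : P),
    S.Forces (Fml.imp φ ψ) v p ↔ ∀ q ≤ p, S.Forces φ v q → S.Forces ψ v q
  or : ∀ {k : ℕ} (φ ψ : Fml k) (v : Fin k → Name P) (p : P),
    S.Forces (Fml.or φ ψ) v p ↔ ∀ q ≤ p, ∃ r ≤ q, S.Forces φ v r ∨ S.Forces ψ v r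
  iff : ∀ {k : ℕ} (φ ψ : Fml k) (v : Fin k → Name P) (p : P),
    S.Forces (Fml.iff φ ψ) v p ↔ ∀ q ≤ p, S.Forces φ v q ↔ S.Forces ψ v q
  ex : ∀ {k : ℕ} (φ : Fml (k + 1)) (v : Fin k → Name P) (p : P),
    S.Forces (Fml.ex φ) v p ↔ ∀ q ≤ p, ∃ r ≤ q, ∃ x, S.IsHS x ∧ S.Forces φ (Fin.cons x v) r

def ST_forcesFacts : Prop :=
  ∀ (P G : Type u) [Preorder P] [OrderTop P] [Group G] [MulAction G P] (S : SymSys P G),
    ForcesFacts S

/-- `{a, b}` as a name. -/
def Name.pair (a b : Name P) : Name P :=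
  Name.mk (ULift.{u} Bool) (fun t => if t.down then a else b) (fun _ => ⊤)

/-- `(a, b) = {{a}, {a, b}}` as a name. -/
def Name.opair (a b : Name P) : Name P := Name.pair (Name.pair a a) (Name.pair a b)

/-- The facts on pairs, `ω` and reals in the symmetric model. -/
structure SetFacts (S : SymSys P G) : Prop where
  hsNum : ∀ n : ℕ, S.IsHS (Name.num n)
  hsOmega : S.IsHS Name.omega
  hsPair : ∀ a b : Name P, S.IsHS a → S.IsHS b → S.IsHS (Name.pair a b)
  hsOpair : ∀ a b : Name P, S.IsHS a → S.IsHS b → S.IsHS (Name.opair a b)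
  opairInj : ∀ (a b a' b' : Name P) (p : P),
    FEq (Name.opair a b) (Name.opair a' b') p → FEq a a' p ∧ FEq b b' p
  numInj : ∀ (m n : ℕ) (p : P), FEq (Name.num m) (Name.num n) p → m = n
  relMem : ∀ {k : ℕ} (v : Fin k → Name P), (∀ i, S.IsHS (v i)) → ∀ (r x y : Fin k) (p : P),
    S.Forces (Fml.relMem r x y) v p ↔ FMem (Name.opair (v x) (v y)) (v r) p
  isOmega : ∀ {k : ℕ} (v : Fin k → Name P), (∀ i, S.IsHS (v i)) → ∀ (w : Fin k) (p : P),
    S.Forces (Fml.isOmega w) v p ↔ FEq (v w) Name.omega p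
  isSucc : ∀ {k : ℕ} (v : Fin k → Name P), (∀ i, S.IsHS (v i)) → ∀ (s x : Fin k) (n : ℕ) (p : P),
    FEq (v x) (Name.num n) p →
    (S.Forces (Fml.isSucc x s) v p ↔ FEq (v s) (Name.num (n + 1)) p)
  memReals : ∀ {k : ℕ} (v : Fin k → Name P), (∀ i, S.IsHS (v i)) → ∀ (r x : Fin k) (p : P),
    S.Forces (Fml.isReals r) v p →
    (FMem (v x) (v r) p ↔
      ∀ z : Name P, S.IsHS z → ∀ q ≤ p, FMem z (v x) q → FMem z Name.omega q)

def ST_setFacts : Prop :=
  ∀ (P G : Type u) [Preorder P] [OrderTop P] [Group G] [MulAction G P] (S : SymSys P G),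
    SetFacts S

/-- The axioms of ZF are forced. -/
structure ForcesZF (S : SymSys P G) : Prop where
  ext : ∀ p, S.Forces Fml.axExt Fin.elim0 p
  pair : ∀ p, S.Forces Fml.axPair Fin.elim0 p
  union : ∀ p, S.Forces Fml.axUnion Fin.elim0 p
  power : ∀ p, S.Forces Fml.axPower Fin.elim0 p
  inf : ∀ p, S.Forces Fml.axInf Fin.elim0 p
  found : ∀ p, S.Forces Fml.axFound Fin.elim0 p
  sep : ∀ (k : ℕ) (φ : Fml (k + 1)) (v : Fin (k + 1) → Name P) (p : P), (∀ i, S.IsHS (v i)) →
    S.Forces (Fml.axSep φ) v p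
  repl : ∀ (k : ℕ) (φ : Fml (k + 2)) (v : Fin (k + 1) → Name P) (p : P), (∀ i, S.IsHS (v i)) →
    S.Forces (Fml.axRepl φ) v p

def ST_forcesZF : Prop :=
  ∀ (P G : Type u) [Preorder P] [OrderTop P] [Group G] [MulAction G P] (S : SymSys P G),
    ForcesZF S

end B

/-- (B) + (C): below every condition there is a countable generic two-valued model, and it is a
model of ZF. -/
def ST_model : Prop :=
  ∀ (P G : Type u) [Preorder P] [OrderTop P] [Group G] [MulAction G P] (S : SymSys P G) (p : P),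
    ∃ (M : Type) (E : M → M → Prop), IsZF E ∧
      ∀ φ : Fml 0, S.Forces φ Fin.elim0 p → Sat M E φ Fin.elim0

/-- (C): the Henkin construction alone. -/
def ST_henkin : Prop :=
  ∀ (P G : Type u) [Preorder P] [OrderTop P] [Group G] [MulAction G P] (S : SymSys P G) (p : P),
    ∃ (M : Type) (E : M → M → Prop), ∀ (k : ℕ) (φ : Fml k),
      (∀ v : Fin k → Name P, (∀ i, S.IsHS (v i)) → S.Forces φ v p) →
        ∀ w : Fin k → M, Sat M E φ w

/-! ## (D): products of a ccc preorder and a countably closed preorder -/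

/-- The ccc lemma. -/
def ST_ccc : Prop :=
  ∀ (P₀ C : Type u) [Preorder P₀] [Preorder C], CCC P₀ → CtblyClosed C →
    ∀ (p : P₀) (c : C) (D : Set (P₀ × C)),
      (∀ x ∈ D, ∀ y ≤ x, y ∈ D) → (∀ x ≤ (p, c), ∃ y ≤ x, y ∈ D) →
      ∃ d ≤ c, ∃ A : Set P₀, A.Countable ∧ (∀ a ∈ A, a ≤ p ∧ (a, d) ∈ D) ∧
        (∀ a ∈ A, ∀ b ∈ A, a ≠ b → ¬ ∃ r, r ≤ a ∧ r ≤ b) ∧
        ∀ q ≤ p, ∃ a ∈ A, ∃ r, r ≤ a ∧ r ≤ q

section D

variable (P₀ C G : Type u) [Preorder P₀] [OrderTop P₀] [Preorder C] [OrderTop C] [Group G]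
  [MulAction G P₀] [MulAction G C]

/-- The hypotheses on the product system. -/
structure GoodProd (S : SymSys (P₀ × C) G) : Prop where
  ccc : CCC P₀
  closed : CtblyClosed C
  countable : ∀ H : ℕ → Subgroup G, (∀ n, H n ∈ S.F) → (⨅ n, H n) ∈ S.F
  stab : ∀ p : P₀, MulAction.stabilizer G p ∈ S.F

end D

/-- Dependent choices hold in the symmetric model. -/
def ST_dc : Prop :=
  ∀ (P₀ C G : Type u) [Preorder P₀] [OrderTop P₀] [Preorder C] [OrderTop C] [Group G]
    [MulAction G P₀] [MulAction G C] (S : SymSys (P₀ × C) G), GoodProd P₀ C G S →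
    ∀ p, S.Forces Fml.dc Fin.elim0 p

/-- Every real of the symmetric model is given by countable sets of conditions of `P₀`. -/
def ST_reals : Prop :=
  ∀ (P₀ C G : Type u) [Preorder P₀] [OrderTop P₀] [Preorder C] [OrderTop C] [Group G]
    [MulAction G P₀] [MulAction G C] (S : SymSys (P₀ × C) G), GoodProd P₀ C G S →
    ∀ (y : Name (P₀ × C)) (p : P₀) (c : C), S.IsHS y →
      (∀ z : Name (P₀ × C), S.IsHS z → ∀ q ≤ (p, c), FMem z y q → FMem z Name.omega q) →
      ∃ d ≤ c, ∃ X : ℕ → Set P₀, (∀ n, (X n).Countable) ∧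
        FEq y (Name.realName (fun q : P₀ => ((q, ⊤) : P₀ × C)) X) (p, d)

end Pool.Agent.Helper46.SP
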