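import Pool.Agent.Helper46.SP.CoreSpec
import Pool.Agent.Helper46.SP.Spec

/-!
# The symmetric system, and the statements of the final modules
-/

open Cardinal Set
open scoped Pointwise

namespace Pool.Agent.Helper46.SP

variable {Q : Par} {S : CodeSys Q}

/-! ## Invariance of the set of conditions -/

theorem smul_feq (g : Grp Q) {x y : RN Q} {p : P0 Q} (h : x.Feq y p) :
    (g • x).Feq (g • y) (g • p) := by
  intro q hq n
  rw [RN.smul_val, RN.smul_val, Set.mem_smul_set_iff_inv_smul_mem,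
    Set.mem_smul_set_iff_inv_smul_mem]
  apply h
  have := P0.smul_le g⁻¹ _ _ hq
  rwa [inv_smul_smul] at this

theorem tlev_smul (g : Grp Q) (t : Trip S) : tlev (g • t) = tlev t := rfl

theorem cut_smul (g : Grp Q) (c : RC S) (ζ : Stg Q) : cut (g • c) ζ = g • cut c ζ := by
  ext t
  rw [Set.mem_smul_set_iff_inv_smul_mem]
  unfold cut
  simp only [Set.mem_setOf_eq, Set.mem_smul_set_iff_inv_smul_mem, tlev_smul]

theorem FM_smul {𝒞 : Set (RC S)} (h𝒞 : ∀ (g : Grp Q), ∀ c ∈ 𝒞, g • c ∈ 𝒞) (g : Grp Q) {x : RN Q}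
    {T : Set (RN Q × P0 Q × RC S)} {p : P0 Q} {c : RC S} (h : FM 𝒞 x T p c) :
    FM 𝒞 (g • x) (g • T) (g • p) (g • c) := by
  intro p' hp' c' hc' hcc'
  have h1 : g⁻¹ • p' ≤ p := by
    have := P0.smul_le g⁻¹ _ _ hp'
    rwa [inv_smul_smul] at this
  have h2 : c ⊆ g⁻¹ • c' := by
    rw [Set.subset_smul_set_iff, inv_inv]
    exact hcc'
  obtain ⟨p'', hp'', c'', hc'', hcc'', t, ht, h3, h4, h5⟩ := h _ h1 _ (h𝒞 _ _ hc') h2
  refine ⟨g • p'', ?_, g • c'', h𝒞 _ _ hc'', ?_, g • t, Set.smul_mem_smul_set ht, ?_, ?_, ?_⟩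
  · have := P0.smul_le g _ _ hp''
    rwa [smul_inv_smul] at this
  · rw [Set.subset_smul_set_iff]
    exact hcc''
  · exact P0.smul_le g _ _ h3
  · exact Set.smul_set_mono h4
  · exact smul_feq g h5

theorem FM_smul_iff {𝒞 : Set (RC S)} (h𝒞 : ∀ (g : Grp Q), ∀ c ∈ 𝒞, g • c ∈ 𝒞) (g : Grp Q)
    {x : RN Q} {T : Set (RN Q × P0 Q × RC S)} {p : P0 Q} {c : RC S} :
    FM 𝒞 (g • x) (g • T) (g • p) (g • c) ↔ FM 𝒞 x T p c := by
  refine ⟨fun h => ?_, FM_smul h𝒞 g⟩
  have := FM_smul h𝒞 g⁻¹ h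
  simpa only [inv_smul_smul] using this

theorem FE_smul {𝒞 : Set (RC S)} (h𝒞 : ∀ (g : Grp Q), ∀ c ∈ 𝒞, g • c ∈ 𝒞) (g : Grp Q)
    {T T' : Set (RN Q × P0 Q × RC S)} {p : P0 Q} {c : RC S} (h : FE 𝒞 T T' p c) :
    FE 𝒞 (g • T) (g • T') (g • p) (g • c) := by
  intro p' hp' c' hc' hcc' x
  have h1 : g⁻¹ • p' ≤ p := by
    have := P0.smul_le g⁻¹ _ _ hp'
    rwa [inv_smul_smul] at this
  have h2 : c ⊆ g⁻¹ • c' := by
    rw [Set.subset_smul_set_iff, inv_inv]
    exact hcc'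
  have h3 := h _ h1 _ (h𝒞 _ _ hc') h2 (g⁻¹ • x)
  have h4 := FM_smul_iff h𝒞 g (x := g⁻¹ • x) (T := T) (p := g⁻¹ • p') (c := g⁻¹ • c')
  have h5 := FM_smul_iff h𝒞 g (x := g⁻¹ • x) (T := T') (p := g⁻¹ • p') (c := g⁻¹ • c')
  simp only [smul_inv_smul] at h4 h5
  rw [h4, h5]
  exact h3

theorem mk_smul_set {α : Type} [MulAction (Grp Q) α] (g : Grp Q) (s : Set α) :
    #(g • s : Set α) = #s :=
  Cardinal.mk_image_eq (MulAction.injective g)

theorem IsSN_smul {𝒞 : Set (RC S)} (h𝒞 : ∀ (g : Grp Q), ∀ c ∈ 𝒞, g • c ∈ 𝒞) (g : Grp Q)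
    {ξ : Q.Lev} {A : S.U} (h : IsSN 𝒞 ξ A) : IsSN 𝒞 ξ (g • A) := by
  refine ⟨?_, ?_, ?_, ?_⟩
  · rw [S.lev_smul]; exact h.lev
  · intro t ht
    rw [S.G_smul, Set.mem_smul_set_iff_inv_smul_mem] at ht
    obtain ⟨h1, h2⟩ := h.small _ ht
    have h3 := h𝒞 g _ h1
    have h4 : g • (g⁻¹ • t).2.2 = t.2.2 := by
      show g • g⁻¹ • t.2.2 = t.2.2
      rw [smul_inv_smul]
    rw [h4] at h3
    refine ⟨h3, ?_⟩
    rw [← h4, mk_smul_set]
    exact h2
  · intro x q f hf hfκ hFM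
    rw [S.G_smul] at hFM ⊢
    rw [Set.mem_smul_set_iff_inv_smul_mem]
    have h1 := FM_smul h𝒞 g⁻¹ hFM
    rw [inv_smul_smul] at h1
    exact h.canon _ _ _ (h𝒞 _ _ hf) (by rw [mk_smul_set]; exact hfκ) h1
  · obtain ⟨z, hz, hz'⟩ := h.inv
    refine ⟨g • z, by rw [mk_smul_set]; exact hz, fun k hk => ?_⟩
    have h1 : (g⁻¹ * k * g) • A = A := by
      apply hz'
      intro i hi
      rw [mul_smul, mul_smul, hk _ (Set.smul_mem_smul_set hi), inv_smul_smul]
    rw [mul_smul, mul_smul, inv_smul_eq_iff] at h1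
    exact h1

theorem OK_smul {𝒞 : Set (RC S)} (h𝒞 : ∀ (g : Grp Q), ∀ c ∈ 𝒞, g • c ∈ 𝒞) (g : Grp Q)
    {η : Q.Lev} {c : RC S} (h : OK 𝒞 η c) : OK 𝒞 η (g • c) := by
  have hsub : ∀ d : RC S, cut (g • c) η ⊆ d → cut c η ⊆ g⁻¹ • d := by
    intro d hd
    rw [Set.subset_smul_set_iff, inv_inv, ← cut_smul]
    exact hd
  have hlab : ∀ t t' : Trip S, t.2.1 = t'.2.1 → (g⁻¹ • t).2.1 = (g⁻¹ • t').2.1 := by
    intro t t' h
    show g⁻¹ • t.2.1 = g⁻¹ • t'.2.1
    rw [h]
  refine ⟨?_, ?_, ?_⟩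
  · intro t ht htl
    rw [Set.mem_smul_set_iff_inv_smul_mem] at ht
    have h1 := IsSN_smul h𝒞 g (h.name _ ht htl)
    have h2 : g • (g⁻¹ • t).1 = t.1 := by
      show g • g⁻¹ • t.1 = t.1
      rw [smul_inv_smul]
    rwa [h2] at h1
  · intro t ht htl p d hd hcd x hFM
    rw [Set.mem_smul_set_iff_inv_smul_mem] at ht
    have h1 := FM_smul h𝒞 g⁻¹ hFM
    rw [← S.G_smul] at h1
    have h2 := h.mem _ ht htl (g⁻¹ • p) (g⁻¹ • d) (h𝒞 _ _ hd) (hsub d hcd) (g⁻¹ • x) h1
    have h3 := FM_smul h𝒞 g h2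
    rw [← S.G_smul, smul_inv_smul, smul_inv_smul] at h3
    have h4 : g • (g⁻¹ • t).1 = t.1 := by
      show g • g⁻¹ • t.1 = t.1
      rw [smul_inv_smul]
    have h5 : g • (g⁻¹ • t).2.2 = t.2.2 := by
      show g • g⁻¹ • t.2.2 = t.2.2
      rw [smul_inv_smul]
    rwa [h4, h5] at h3
  · intro t ht t' ht' htl hl p d hd hcd hFE
    rw [Set.mem_smul_set_iff_inv_smul_mem] at ht ht'
    have h1 := FE_smul h𝒞 g⁻¹ hFE
    rw [← S.G_smul, ← S.G_smul] at h1
    have h2 := h.fn _ ht _ ht' htl (hlab _ _ hl) (g⁻¹ • p) (g⁻¹ • d) (h𝒞 _ _ hd) (hsub d hcd) h1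
    have h3 := smul_feq g h2
    rw [smul_inv_smul] at h3
    have h5 : g • (g⁻¹ • t).2.2 = t.2.2 := by
      show g • g⁻¹ • t.2.2 = t.2.2
      rw [smul_inv_smul]
    have h6 : g • (g⁻¹ • t').2.2 = t'.2.2 := by
      show g • g⁻¹ • t'.2.2 = t'.2.2
      rw [smul_inv_smul]
    rwa [h5, h6] at h3

theorem CC_smul (ζ : Stg Q) (g : Grp Q) (c : RC S) (hc : c ∈ CC ζ) : g • c ∈ CC ζ := by
  induction ζ using WellFoundedLT.induction generalizing g c with
  | ind ζ ih =>
    rw [mem_CC] at hc ⊢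
    obtain ⟨h1, h2, h3⟩ := hc
    refine ⟨by rw [mk_smul_set]; exact h1, ?_, ?_⟩
    · intro t ht
      rw [Set.mem_smul_set_iff_inv_smul_mem] at ht
      exact h2 (g⁻¹ • t) ht
    · intro η hη
      exact OK_smul (fun g c hc => ih _ hη g c hc) g (h3 η hη)

theorem CC_empty (ζ : Stg Q) : (∅ : RC S) ∈ CC ζ := by
  rw [mem_CC]
  refine ⟨by simp, by simp, fun η _ => ⟨?_, ?_, ?_⟩⟩ <;> intro t ht <;> exact ht.elim

/-! ## The poset of conditions -/

variable (S)

/-- The poset of all conditions. -/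
def Cnd : Type := {c : RC S // c ∈ CC (⊤ : Stg Q)}

variable {S}

namespace Cnd

instance : Preorder (Cnd S) where
  le c d := d.1 ⊆ c.1
  le_refl c := Set.Subset.refl c.1
  le_trans _ _ _ h h' := Set.Subset.trans h' h

theorem le_def (c d : Cnd S) : c ≤ d ↔ d.1 ⊆ c.1 := Iff.rfl

instance : OrderTop (Cnd S) where
  top := ⟨∅, CC_empty _⟩
  le_top c := Set.empty_subset c.1

theorem top_val : (⊤ : Cnd S).1 = ∅ := rfl

instance : MulAction (Grp Q) (Cnd S) where
  smul g c := ⟨g • c.1, CC_smul _ g _ c.2⟩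
  one_smul c := Subtype.ext (one_smul _ c.1)
  mul_smul g h c := Subtype.ext (mul_smul g h c.1)

theorem smul_val (g : Grp Q) (c : Cnd S) : (g • c).1 = g • c.1 := rfl

end Cnd

/-- The small sets of indices. -/
def Small (z : Set (Idx Q)) : Prop := ∃ ν : Q.Lev, z ⊆ below (ν : Stg Q) ∧ #z ≤ Q.κ ν

theorem κ_inf (ν : Q.Lev) : ℵ₀ ≤ Q.κ ν :=
  (Cardinal.cantor ℵ₀).le.trans (Q.cont_le ν)

theorem κ_mono {η ξ : Q.Lev} (h : η ≤ ξ) : Q.κ η ≤ Q.κ ξ := by
  rcases h.eq_or_lt with h | h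
  · rw [h]
  · exact ((Cardinal.cantor _).le.trans (Cardinal.cantor _).le).trans (Q.κ_beth _ _ h)

theorem below_mono {η ξ : Stg Q} (h : η ≤ ξ) : below η ⊆ (below ξ : Set (Idx Q)) :=
  fun _ hi ν hν => (hi ν hν).trans_le h

theorem Small.union {z w : Set (Idx Q)} (hz : Small z) (hw : Small w) : Small (z ∪ w) := by
  obtain ⟨ν, h1, h2⟩ := hz
  obtain ⟨ν', h1', h2'⟩ := hw
  refine ⟨max ν ν', ?_, ?_⟩
  · apply Set.union_subset
    · exact h1.trans (below_mono (by exact_mod_cast le_max_left ν ν'))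
    · exact h1'.trans (below_mono (by exact_mod_cast le_max_right ν ν'))
  · refine (Cardinal.mk_union_le _ _).trans ?_
    refine (add_le_add (h2.trans (κ_mono (le_max_left ν ν')))
      (h2'.trans (κ_mono (le_max_right ν ν')))).trans ?_
    rw [Cardinal.add_eq_self (κ_inf _)]

theorem Small.smul {z : Set (Idx Q)} (hz : Small z) (g : Grp Q) : Small (g • z) := by
  obtain ⟨ν, h1, h2⟩ := hz
  refine ⟨ν, ?_, by rw [mk_smul_set]; exact h2⟩
  intro i hi
  rw [Set.mem_smul_set_iff_inv_smul_mem] at hi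
  intro ξ hξ
  exact h1 hi ξ hξ

theorem Small.mono {z w : Set (Idx Q)} (hz : Small z) (h : w ⊆ z) : Small w := by
  obtain ⟨ν, h1, h2⟩ := hz
  exact ⟨ν, h.trans h1, (Cardinal.mk_le_mk_of_subset h).trans h2⟩

theorem Small.empty : Small (∅ : Set (Idx Q)) := by
  obtain ⟨ν, _⟩ := Q.lev_bdd ∅ Set.countable_empty
  exact ⟨ν, Set.empty_subset _, by simp⟩

/-- The subgroup fixing `z` pointwise. -/
def fixSub (z : Set (Idx Q)) : Subgroup (Grp Q) where
  carrier := {g | Fixes g z}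
  mul_mem' {g h} hg hh i hi := by rw [mul_smul, hh i hi, hg i hi]
  one_mem' i _ := one_smul _ i
  inv_mem' {g} hg i hi := by rw [inv_smul_eq_iff, hg i hi]

theorem mem_fixSub {z : Set (Idx Q)} {g : Grp Q} : g ∈ fixSub z ↔ Fixes g z := Iff.rfl

variable (S)

/-- The symmetric system. -/
def sys : SymSys (P0 Q × Cnd S) (Grp Q) where
  smul_le g p q h := ⟨P0.smul_le g _ _ h.1, Set.smul_set_mono h.2⟩
  smul_top g := by
    apply Prod.ext
    · rfl
    · exact Subtype.ext (Set.smul_set_empty)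
  F := {H | ∃ z, Small z ∧ fixSub z ≤ H}
  top_mem := ⟨∅, Small.empty, le_top⟩
  inf_mem := by
    rintro H ⟨z, hz, hH⟩ K ⟨w, hw, hK⟩
    refine ⟨z ∪ w, hz.union hw, le_inf ?_ ?_⟩
    · exact fun g hg => hH (fun i hi => hg i (Or.inl hi))
    · exact fun g hg => hK (fun i hi => hg i (Or.inr hi))
  mono := by
    rintro H ⟨z, hz, hH⟩ K hK
    exact ⟨z, hz, hH.trans hK⟩
  conj_mem := by
    rintro H ⟨z, hz, hH⟩ g
    refine ⟨fixSub (g • z), ⟨g • z, hz.smul g, le_rfl⟩, fun k hk => hH ?_⟩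
    intro i hi
    rw [mul_smul, mul_smul, hk _ (Set.smul_mem_smul_set hi), inv_smul_smul]

/-- The canonical name of the real given by `x`. -/
def rn (x : RN Q) : Name (P0 Q × Cnd S) :=
  Name.realName (fun q : P0 Q => ((q, ⊤) : P0 Q × Cnd S)) x.val

/-- The name of the Cohen real with index `i`. -/
def coh (i : Q.Ω) : RN Q where
  val n := {p | p.val (i, n) = some true}
  reg := by
    intro n p
    constructor
    · intro h q hq
      exact ⟨q, le_rfl, hq _ _ h⟩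
    · intro h
      by_contra hne
      obtain ⟨b, hb⟩ : ∃ b, p.val (i, n) = some b ∨ p.val (i, n) = none := by
        rcases hv : p.val (i, n) with _ | b
        · exact ⟨true, Or.inr rfl⟩
        · exact ⟨b, Or.inl rfl⟩
      rcases hb with hb | hb
      · have hbf : b = false := by
          rcases b with _ | _
          · rfl
          · exact absurd hb hne
        obtain ⟨r, hr, hr'⟩ := h p le_rfl
        have h1 := hr _ _ hb
        rw [hbf] at h1
        have h2 : r.val (i, n) = some true := hr'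
        rw [h1] at h2
        cases h2
      · classical
        let q : P0 Q := ⟨fun x => if x = (i, n) then some false else p.val x,
          (p.fin.union (Set.finite_singleton (i, n))).subset (by
            intro x hx
            by_cases hx' : x = (i, n)
            · exact Or.inr hx'
            · left
              intro h0
              apply hx
              simp [hx', h0])⟩
        have hq : q ≤ p := by
          intro x b' hb'
          show (if x = (i, n) then some false else p.val x) = some b'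
          by_cases hx' : x = (i, n)
          · rw [hx', hb] at hb'
            cases hb'
          · rw [if_neg hx']
            exact hb'
        obtain ⟨r, hr, hr'⟩ := h q hq
        have h1 := hr (i, n) false (by
          show (if (i, n) = (i, n) then some false else p.val (i, n)) = some false
          rw [if_pos rfl])
        have h2 : r.val (i, n) = some true := hr'
        rw [h1] at h2
        cases h2
  supp := by
    refine ⟨{(none, i)}, Set.countable_singleton _, fun n p => ?_⟩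
    simp [P0.res]

/-! ## The final modules -/

/-- (F1) -/
def ST_good : Prop := ∀ (Q : Par) (S : CodeSys Q), GoodProd (P0 Q) (Cnd S) (Grp Q) (sys S)

/-- Facts on the names of reals in the symmetric system. -/
structure RealFacts : Prop where
  /-- every real is given by a name of a real -/
  ex : ∀ (y : Name (P0 Q × Cnd S)) (p : P0 Q) (c : Cnd S), (sys S).IsHS y →
    (∀ z : Name (P0 Q × Cnd S), (sys S).IsHS z → ∀ q ≤ (p, c), Name.FMem z y q →
      Name.FMem z Name.omega q) →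
    ∃ d ≤ c, ∃ x : RN Q, Name.FEq y (rn S x) (p, d)
  hs : ∀ x : RN Q, (sys S).IsHS (rn S x)
  sub : ∀ (x : RN Q) (z : Name (P0 Q × Cnd S)) (q : P0 Q × Cnd S), Name.FMem z (rn S x) q →
    Name.FMem z Name.omega q
  feq : ∀ (x y : RN Q) (p : P0 Q) (c : Cnd S), Name.FEq (rn S x) (rn S y) (p, c) ↔ x.Feq y p
  smul : ∀ (g : Grp Q) (x : RN Q), Name.FEq (Name.act g (rn S x)) (rn S (g • x)) ⊤

/-- (F2a) -/
def ST_realFacts : Prop := ∀ (Q : Par) (S : CodeSys Q), RealFacts S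

/-- (F2b) The continuum splitting property is forced. -/
def ST_spr : Prop := ∀ (Q : Par) (S : CodeSys Q) (p : P0 Q × Cnd S),
  (sys S).Forces Fml.spr Fin.elim0 p

/-- (F3) The negation of `WO(ℝ)` is forced. -/
def ST_nwor : Prop := ∀ (Q : Par) (S : CodeSys Q) (p : P0 Q × Cnd S),
  (sys S).Forces (Fml.neg Fml.wor) Fin.elim0 p

end Pool.Agent.Helper46.SP
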